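import Pool.Agent.Seat68.VL.Sys

/-!
# From schedules to solutions of the system
-/

set_option autoImplicit false

namespace Pool.Agent.Seat68.VL

open Finset

/-- the linear programming argument -/
theorem lp (N : ℕ) (D : ℕ → ℤ) (h0 : ∑ t ∈ range N, D t = 0)
    (hS : ∀ j < N, ∑ t ∈ Ico j N, ((N : ℤ) - t) * D t ≤ 0) : ∀ t < N, D t = 0 := by
  have hE : ∀ j < N, ∑ t ∈ Ico j N, D t = D j + ∑ t ∈ Ico (j + 1) N, D t :=
    fun j hj => sum_eq_sum_Ico_succ_bot hj _
  have hSS : ∀ j < N, ∑ t ∈ Ico j N, ((N : ℤ) - t) * D t = ((N : ℤ) - j) * D j +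
      ∑ t ∈ Ico (j + 1) N, ((N : ℤ) - t) * D t := fun j hj => sum_eq_sum_Ico_succ_bot hj _
  have key : ∀ k ≤ N, (k : ℤ) * (∑ t ∈ Ico (N - k) N, D t) ≤
      ∑ t ∈ Ico (N - k) N, ((N : ℤ) - t) * D t ∧ ∑ t ∈ Ico (N - k) N, D t ≤ 0 := by
    intro k
    induction k with
    | zero => intro _; simp
    | succ k ih =>
      intro hk
      obtain ⟨h1, h2⟩ := ih (by omega)
      have hj : N - (k + 1) < N := by omega
      have e1 := hE _ hj
      have e2 := hSS _ hj
      have e3 := hS _ hj
      have e4 : N - (k + 1) + 1 = N - k := by omega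
      have e5 : ((N : ℤ) - ((N - (k + 1) : ℕ) : ℤ)) = k + 1 := by omega
      rw [e4] at e1 e2
      rw [e5] at e2
      set E := ∑ t ∈ Ico (N - k) N, D t
      set S := ∑ t ∈ Ico (N - k) N, ((N : ℤ) - t) * D t
      set E' := ∑ t ∈ Ico (N - (k + 1)) N, D t
      set S' := ∑ t ∈ Ico (N - (k + 1)) N, ((N : ℤ) - t) * D t
      have h3 : ((k + 1 : ℕ) : ℤ) * E' ≤ S' := by
        rw [e1, e2]
        push_cast
        linarith
      refine ⟨h3, ?_⟩
      by_contra hcon
      have h4 : 0 < ((k + 1 : ℕ) : ℤ) * E' := mul_pos (by positivity) (by linarith)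
      linarith
  have hz : ∀ j ≤ N, ∑ t ∈ Ico j N, D t = 0 := by
    intro j
    induction j with
    | zero =>
      intro _
      rw [← range_eq_Ico]
      exact h0
    | succ j ih =>
      intro hj
      have h1 := ih (by omega)
      have e1 := hE j (by omega)
      have e2 := hSS j (by omega)
      have e3 := hS j (by omega)
      obtain ⟨h2, h3⟩ := key (N - (j + 1)) (by omega)
      have e4 : N - (N - (j + 1)) = j + 1 := by omega
      rw [e4] at h2 h3
      have e5 : (((N - (j + 1) : ℕ) : ℤ)) = (N : ℤ) - j - 1 := by omega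
      rw [e5] at h2
      have h4 : ((N : ℤ) - j) * D j = ((N : ℤ) - j) * (∑ t ∈ Ico j N, D t) -
        ((N : ℤ) - j) * (∑ t ∈ Ico (j + 1) N, D t) := by rw [e1]; ring
      rw [h1] at h4
      have h5 : ((N : ℤ) - j - 1) * (∑ t ∈ Ico (j + 1) N, D t) =
        ((N : ℤ) - j) * (∑ t ∈ Ico (j + 1) N, D t) - ∑ t ∈ Ico (j + 1) N, D t := by ring
      linarith
  intro t ht
  have h1 := hE t ht
  rw [hz t ht.le, hz (t + 1) ht] at h1
  linarith

variable {ι : Type}

/-- the small jobs of a list -/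
def smalls (l : List (Ix ι)) : List ι := l.filterMap fun v => match v with
  | .S i => some i
  | _ => none

theorem mem_smalls {l : List (Ix ι)} {i : ι} : i ∈ smalls l ↔ Ix.S i ∈ l := by
  unfold smalls
  rw [List.mem_filterMap]
  constructor
  · rintro ⟨v, hv, h⟩
    cases v <;> simp at h
    subst h
    exact hv
  · intro h
    exact ⟨_, h, rfl⟩

theorem nodup_smalls {l : List (Ix ι)} (h : l.Nodup) : (smalls l).Nodup := by
  unfold smalls
  refine List.Nodup.filterMap ?_ h
  intro a a' b h1 h2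
  cases a <;> simp at h1
  cases a' <;> simp at h2
  rw [h1, h2]

namespace Sys

variable {s : Sys ι}

theorem sum_hand (l : List (Ix ι)) : (l.map fun v => (s.d v).2.2.2).sum =
    l.countP Ix.big * s.M + ((smalls l).map s.h).sum := by
  induction l with
  | nil => simp [smalls]
  | cons v l ih =>
    rw [List.countP_cons, List.map_cons, List.sum_cons, ih]
    cases v <;> simp [Ix.big, d, smalls] <;> ring

theorem swap_sum (J : Finset ι) (g f : ι → ℕ) (w : ℕ → ℕ) (T : Finset ℕ) :
    ∑ t ∈ T, w t * ∑ i ∈ J with g i = t, f i = ∑ i ∈ J, if g i ∈ T then w (g i) * f i else 0 := by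
  have h1 : ∀ t ∈ T, w t * ∑ i ∈ J with g i = t, f i =
      ∑ i ∈ J, if g i = t then w t * f i else 0 := by
    intro t _
    rw [sum_filter, mul_sum]
    refine sum_congr rfl fun i _ => ?_
    split_ifs <;> simp
  rw [sum_congr rfl h1, sum_comm]
  refine sum_congr rfl fun i _ => ?_
  by_cases h : g i ∈ T
  · rw [if_pos h, sum_eq_single_of_mem (g i) h]
    · simp
    · intro t _ ht
      rw [if_neg (fun h => ht h.symm)]
  · rw [if_neg h]
    refine sum_eq_zero fun t ht => ?_
    rw [if_neg]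
    rintro rfl
    exact h ht

theorem IsL.split {l : List (Ix ι)} (h : s.IsL l) {v : Ix ι} (hv : s.Valid v) :
    ∃ pre suf, l = pre ++ v :: suf := List.append_of_mem ((h.mem v).2 hv)

theorem IsL.cntC (ho : s.Ok) {l : List (Ix ι)} (h : s.IsL l) {pre suf : List (Ix ι)} {j : ℕ}
    (hl : l = pre ++ .C j :: suf) : pre.countP Ix.isC = j ∧ pre.countP Ix.big = 3 * j := by
  have h1 := h.inv ho pre _ hl
  have h2 := h.fact ho hl
  have h3 := h.notMem hl
  have h4 := (h1.C h3 h2).1
  rw [h1.hc]
  omega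

theorem IsL.cntA (ho : s.Ok) {l : List (Ix ι)} (h : s.IsL l) {pre suf : List (Ix ι)} {j : ℕ}
    (hl : l = pre ++ .A j :: suf) : pre.countP Ix.isC = j + 1 := by
  have h1 := h.inv ho pre _ hl
  have h2 := h.fact ho hl
  have h3 := h.notMem hl
  have h4 := (h1.A h3 h2).1
  rw [h1.hc]
  omega

theorem IsL.cntB (ho : s.Ok) {l : List (Ix ι)} (h : s.IsL l) {pre suf : List (Ix ι)} {j : ℕ}
    (hl : l = pre ++ .B j :: suf) : pre.countP Ix.isC = j + 1 := by
  have h1 := h.inv ho pre _ hl
  have h2 := h.fact ho hl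
  have h3 := h.notMem hl
  have h4 := (h1.B h3 h2).1
  rw [h1.hc]
  omega

theorem IsL.cntS (ho : s.Ok) {l : List (Ix ι)} (h : s.IsL l) {pre suf : List (Ix ι)} {i : ι}
    (hl : l = pre ++ .S i :: suf) : s.st i + 1 ≤ pre.countP Ix.isC ∧ pre.countP Ix.isC ≤ s.N := by
  have h1 := h.inv ho pre _ hl
  have h2 := h.fact ho hl
  have h3 : pre.countP Ix.big ≤ 3 * s.N := by
    rw [← countP_all, ← h.perm.countP_eq, hl, List.countP_append]
    omega
  rw [h1.hc]
  simp only [lvl] at h2
  omega

/-- the job `v` comes after the home job `j` -/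
theorem after {l pre suf pre' suf' : List (Ix ι)} {j : ℕ} {v : Ix ι}
    (hl : l = pre ++ .C j :: suf) (hl' : l = pre' ++ v :: suf')
    (h : pre.countP Ix.isC + 1 ≤ pre'.countP Ix.isC) :
    ∃ mid, suf = mid ++ v :: suf' ∧ pre'.countP Ix.isC = pre.countP Ix.isC + 1 + mid.countP Ix.isC := by
  rw [hl] at hl'
  rcases List.append_eq_append_iff.1 hl' with ⟨a, ha, hb⟩ | ⟨a, ha, hb⟩
  · cases a with
    | nil =>
      rw [ha, List.append_nil] at h
      omega
    | cons w a =>
      rw [List.cons_append, List.cons.injEq] at hb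
      obtain ⟨rfl, hb⟩ := hb
      refine ⟨a, hb, ?_⟩
      rw [ha, List.countP_append, List.countP_cons]
      simp [Ix.isC]
      omega
  · rw [ha, List.countP_append] at h
    omega

/-- the reach in the round `t` on the side `b` -/
def mx (s : Sys ι) (suf : List (Ix ι)) (j : ℕ) (b : Bool) (t : ℕ) : ℕ :=
  if b then mxR s.d Ix.isC (j + 1) suf (t + 1) else mxL s.d Ix.isC (j + 1) suf (t + 1)

theorem travel_ge (j : ℕ) (hj : j < s.N) (suf : List (Ix ι)) :
    2 * ∑ t ∈ Ico j s.N, (mx s suf j true t + mx s suf j false t) ≤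
      trR s.d 0 suf + trL s.d 0 suf := by
  have h1 := trR_ge s.d Ix.isC (by intro v hv; cases v <;> simp [Ix.isC, d] at hv ⊢) (s.N + 1) suf
    (j + 1) 0
  have h2 := trL_ge s.d Ix.isC (by intro v hv; cases v <;> simp [Ix.isC, d] at hv ⊢) (s.N + 1) suf
    (j + 1) 0
  have e : ∀ f : ℕ → ℕ, ∑ t ∈ Ico j s.N, f (t + 1) = f (j + 1) + ∑ t ∈ Ico (j + 1 + 1) (s.N + 1), f t := by
    intro f
    rw [sum_Ico_add' f j s.N 1, sum_eq_sum_Ico_succ_bot (by omega)]
  rw [sum_add_distrib]
  have e1 : ∑ t ∈ Ico j s.N, mx s suf j true t = mxR s.d Ix.isC (j + 1) suf (j + 1) +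
      ∑ t ∈ Ico (j + 1 + 1) (s.N + 1), mxR s.d Ix.isC (j + 1) suf t :=
    e (mxR s.d Ix.isC (j + 1) suf)
  have e2 : ∑ t ∈ Ico j s.N, mx s suf j false t = mxL s.d Ix.isC (j + 1) suf (j + 1) +
      ∑ t ∈ Ico (j + 1 + 1) (s.N + 1), mxL s.d Ix.isC (j + 1) suf t :=
    e (mxL s.d Ix.isC (j + 1) suf)
  rw [e1, e2]
  omega

theorem T_eq {j : ℕ} (hj : j ≤ s.N) : s.T s.N = s.T j + 3 * (s.N - j) * s.M +
    ∑ t ∈ Ico j s.N, s.stp t := by
  obtain ⟨m, hm⟩ := Nat.exists_eq_add_of_le hj
  unfold T
  rw [← sum_range_add_sum_Ico _ hj]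
  have : s.N - j = m := by omega
  rw [this, hm]
  ring

variable (s) in
/-- A schedule with its home jobs and the numbers of home jobs before the small jobs. -/
structure Dat (l : List (Ix ι)) (pr : ι → ℕ) : Prop where
  isL : s.IsL l
  pr : ∀ i ∈ s.J, ∃ pre suf, l = pre ++ .S i :: suf ∧ pre.countP Ix.isC = pr i

theorem IsL.dat {l : List (Ix ι)} (h : s.IsL l) : ∃ pr : ι → ℕ, s.Dat l pr := by
  have h1 : ∀ i, ∃ n, i ∈ s.J → ∃ pre suf, l = pre ++ .S i :: suf ∧ pre.countP Ix.isC = n := by
    intro i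
    by_cases hi : i ∈ s.J
    · obtain ⟨pre, suf, hl⟩ := h.split (v := .S i) hi
      exact ⟨_, fun _ => ⟨pre, suf, hl, rfl⟩⟩
    · exact ⟨0, fun h => absurd h hi⟩
  choose pr hpr using h1
  exact ⟨pr, h, hpr⟩

/-- the position of a small job on its side -/
def ps (s : Sys ι) (i : ι) : ℕ := s.q (s.side i) (s.st i) + s.dl i

/-- The main inequality for the home job `j`. -/
theorem Dat.main (ho : s.Ok) {l : List (Ix ι)} {pr : ι → ℕ} (h : s.Dat l pr) {j : ℕ} (hj : j < s.N) :
    ∃ m : Bool → ℕ → ℕ, (∀ b t, j ≤ t → t < s.N → s.q b t ≤ m b t) ∧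
      (∀ i ∈ s.J, ∀ t, j ≤ t → pr i = t + 1 → s.ps i ≤ m (s.side i) t) ∧
      (∑ i ∈ s.J, if j + 1 ≤ pr i then s.h i else 0) +
        2 * ∑ t ∈ Ico j s.N, (m true t + m false t) ≤ ∑ t ∈ Ico j s.N, s.stp t := by
  classical
  obtain ⟨pre, suf, hl⟩ := h.isL.split (v := .C j) hj
  obtain ⟨hc, hb⟩ := h.isL.cntC ho hl
  refine ⟨mx s suf j, ?_, ?_, ?_⟩
  · intro b t ht htN
    cases b with
    | true =>
      obtain ⟨pre', suf', hl'⟩ := h.isL.split (v := .A t) htN
      have h1 := h.isL.cntA ho hl'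
      obtain ⟨mid, h2, h3⟩ := after hl hl' (by omega)
      have h4 := mxR_mem s.d Ix.isC (.A t) suf' mid (j + 1)
      rw [← h2] at h4
      have h5 : j + 1 + mid.countP Ix.isC = t + 1 := by omega
      rw [h5] at h4
      exact h4
    | false =>
      obtain ⟨pre', suf', hl'⟩ := h.isL.split (v := .B t) htN
      have h1 := h.isL.cntB ho hl'
      obtain ⟨mid, h2, h3⟩ := after hl hl' (by omega)
      have h4 := mxL_mem s.d Ix.isC (.B t) suf' mid (j + 1)
      rw [← h2] at h4
      have h5 : j + 1 + mid.countP Ix.isC = t + 1 := by omega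
      rw [h5] at h4
      exact h4
  · intro i hi t ht hpr
    obtain ⟨pre', suf', hl', h1⟩ := h.pr i hi
    obtain ⟨mid, h2, h3⟩ := after hl hl' (by omega)
    have h5 : j + 1 + mid.countP Ix.isC = t + 1 := by omega
    cases hs : s.side i with
    | true =>
      have h4 := mxR_mem s.d Ix.isC (.S i) suf' mid (j + 1)
      rw [← h2, h5] at h4
      simpa [d, hs, ps, mx] using h4
    | false =>
      have h4 := mxL_mem s.d Ix.isC (.S i) suf' mid (j + 1)
      rw [← h2, h5] at h4
      simpa [d, hs, ps, mx] using h4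
  · have h1 := le_fin_at s.d (.C j) suf pre 0 0 0
    rw [← hl] at h1
    have h2 := h.isL.le
    rw [T_eq hj.le] at h2
    have h3 := travel_ge j hj suf
    have h4 : (Ix.C j :: suf).countP Ix.big = 3 * (s.N - j) := by
      have := h.isL.perm.countP_eq (p := Ix.big)
      rw [countP_all, hl, List.countP_append] at this
      omega
    rw [sum_hand, h4] at h1
    have hnd : (Ix.C j :: suf).Nodup := by
      have := h.isL.nodup
      rw [hl, List.nodup_append] at this
      exact this.2.1
    have h5 := sum_le_list s.h (smalls (Ix.C j :: suf)) (nodup_smalls hnd)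
      (s.J.filter fun i => j + 1 ≤ pr i) (by
        intro i hi
        rw [mem_filter] at hi
        obtain ⟨pre', suf', hl', h1⟩ := h.pr i hi.1
        obtain ⟨mid, h2, h3⟩ := after hl hl' (by omega)
        rw [mem_smalls, h2]
        simp)
    rw [sum_filter] at h5
    change s.T j + _ + (trR s.d 0 suf + trL s.d 0 suf) ≤ _ at h1
    omega

theorem ps_far (ho : s.Ok) {i : ι} (hi : i ∈ s.J) {t : ℕ} (h1 : s.st i < t) (h2 : t < s.en i) :
    s.q (s.side i) t + s.U ≤ s.ps i + s.N * s.D := by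
  have h3 := ho.lev i hi t h1 h2
  have h4 := ho.en_lt i hi
  have h5 := ho.le_top (s.side i) t (by omega)
  unfold ps q
  have e1 : (s.Λ - s.r (s.side i) t) * s.U + s.U ≤ (s.Λ - s.r (s.side i) (s.st i)) * s.U := by
    have : (s.Λ - s.r (s.side i) t) + 1 ≤ s.Λ - s.r (s.side i) (s.st i) := by omega
    calc (s.Λ - s.r (s.side i) t) * s.U + s.U = ((s.Λ - s.r (s.side i) t) + 1) * s.U := by ring
      _ ≤ _ := Nat.mul_le_mul_right _ this
  have e2 : t * s.D ≤ s.N * s.D := Nat.mul_le_mul_right _ (by omega)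
  omega

theorem sum_stp (a b : ℕ) : ∑ t ∈ Ico a b, s.stp t = 2 * ∑ t ∈ Ico a b, (s.q true t + s.q false t) +
    ∑ t ∈ Ico a b, s.psi t * s.β t := by
  rw [mul_sum, ← sum_add_distrib]
  refine sum_congr rfl fun t _ => ?_
  unfold stp
  ring

/-- each small job is processed in its first round, or not before its last round -/
theorem Dat.dich (ho : s.Ok) {l : List (Ix ι)} {pr : ι → ℕ} (h : s.Dat l pr) {i : ι} (hi : i ∈ s.J) :
    pr i = s.st i + 1 ∨ s.en i + 1 ≤ pr i := by
  by_contra hcon
  rw [not_or] at hcon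
  obtain ⟨pre, suf, hl, hp⟩ := h.pr i hi
  have h1 := h.isL.cntS ho hl
  rw [hp] at h1
  obtain ⟨t, ht⟩ : ∃ t, pr i = t + 1 := ⟨pr i - 1, by omega⟩
  have h2 := ho.en_lt i hi
  have h3 := ps_far ho hi (t := t) (by omega) (by omega)
  obtain ⟨m, hm1, hm2, hm3⟩ := h.main ho (j := 0) (by omega)
  have h4 := hm2 i hi t (Nat.zero_le _) ht
  rw [sum_stp] at hm3
  have h5 := ho.hU
  rw [range_eq_Ico] at h5
  -- compare the sums
  have h6 : ∑ u ∈ Ico 0 s.N, (s.q true u + s.q false u) + (m (s.side i) t - s.q (s.side i) t) ≤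
      ∑ u ∈ Ico 0 s.N, (m true u + m false u) := by
    have h7 : ∀ u ∈ Ico 0 s.N, (s.q true u + s.q false u) +
        (if u = t then (m (s.side i) t - s.q (s.side i) t) else 0) ≤ m true u + m false u := by
      intro u hu
      rw [mem_Ico] at hu
      have a1 := hm1 true u (Nat.zero_le _) hu.2
      have a2 := hm1 false u (Nat.zero_le _) hu.2
      split_ifs with hut
      · subst hut
        cases s.side i <;> omega
      · omega
    have h8 := sum_le_sum h7
    rw [sum_add_distrib, sum_ite_eq' (Ico 0 s.N) t, if_pos (by rw [mem_Ico]; omega)] at h8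
    exact h8
  omega

theorem sum_Y (ho : s.Ok) (x : ι → Bool) : ∑ t ∈ range s.N, s.Y x t = ∑ i ∈ s.J, s.c i := by
  unfold Y
  rw [sum_add_distrib]
  have a1 := swap_sum s.J s.st (fun i => if x i = true then s.c i else 0) (fun _ => 1) (range s.N)
  have a2 := swap_sum s.J s.en (fun i => if x i = true then 0 else s.c i) (fun _ => 1) (range s.N)
  simp only [one_mul] at a1 a2
  rw [a1, a2, ← sum_add_distrib]
  refine sum_congr rfl fun i hi => ?_
  have h1 := ho.st_lt i hi
  have h2 := ho.en_lt i hi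
  rw [if_pos (mem_range.2 (by omega)), if_pos (mem_range.2 h2)]
  cases x i <;> simp

/-- **From schedules to solutions.** -/
theorem solvable_of_isL (ho : s.Ok) {l : List (Ix ι)} (hl : s.IsL l) : s.Solvable := by
  classical
  obtain ⟨pr, h⟩ := hl.dat
  set x : ι → Bool := fun i => decide (pr i = s.st i + 1) with hx
  refine ⟨x, ?_⟩
  have hxt : ∀ i, x i = true ↔ pr i = s.st i + 1 := fun i => by simp [hx]
  -- the weights
  have hw : ∀ i ∈ s.J, s.psi (s.st i) * s.c i = 2 * s.dl i + s.h i := by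
    intro i hi
    have h1 := ho.st_lt i hi
    have h2 := ho.en_lt i hi
    unfold Sys.h psi dl
    obtain ⟨a, ha⟩ := Nat.exists_eq_add_of_lt h1
    obtain ⟨b, hb⟩ := Nat.exists_eq_add_of_lt h2
    have e1 : s.N - s.st i = a + 1 + (b + 1) := by omega
    have e2 : s.en i - s.st i = a + 1 := by omega
    have e3 : s.N - s.en i = b + 1 := by omega
    rw [e1, e2, e3]
    ring
  have key : ∀ j < s.N, ∑ t ∈ Ico j s.N, s.psi t * s.Y x t ≤ ∑ t ∈ Ico j s.N, s.psi t * s.β t := by
    intro j hj
    obtain ⟨m, hm1, hm2, hm3⟩ := h.main ho hj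
    rw [sum_stp] at hm3
    -- the pushes
    have hp : ∀ b, ∀ t ∈ Ico j s.N, s.q b t + (∑ i ∈ s.J with s.st i = t,
        if s.side i = b ∧ x i = true then s.dl i else 0) ≤ m b t := by
      intro b t ht
      rw [mem_Ico] at ht
      by_cases hex : ∃ i ∈ s.J, s.st i = t ∧ s.side i = b ∧ x i = true
      · obtain ⟨i, hi, h1, h2, h3⟩ := hex
        rw [sum_eq_single_of_mem i (by rw [mem_filter]; exact ⟨hi, h1⟩)]
        · rw [if_pos ⟨h2, h3⟩]
          have h4 := hm2 i hi t ht.1 (by rw [(hxt i).1 h3, h1])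
          unfold ps at h4
          rw [h1, h2] at h4
          exact h4
        · intro k hk hki
          rw [mem_filter] at hk
          rw [if_neg]
          rintro ⟨h4, -⟩
          exact hki (ho.uniq k hk.1 i hi (by rw [h4, h2]) (by rw [hk.2, h1]))
      · rw [sum_eq_zero, add_zero]
        · exact hm1 b t ht.1 ht.2
        · intro i hi
          rw [mem_filter] at hi
          rw [if_neg]
          rintro ⟨h1, h2⟩
          exact hex ⟨i, hi.1, hi.2, h1, h2⟩
    have hp2 : ∑ t ∈ Ico j s.N, (s.q true t + s.q false t) + ∑ t ∈ Ico j s.N,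
        (∑ i ∈ s.J with s.st i = t, if x i = true then s.dl i else 0) ≤
        ∑ t ∈ Ico j s.N, (m true t + m false t) := by
      rw [← sum_add_distrib]
      refine sum_le_sum fun t ht => ?_
      have a1 := hp true t ht
      have a2 := hp false t ht
      have a3 : (∑ i ∈ s.J with s.st i = t, if x i = true then s.dl i else 0) =
          (∑ i ∈ s.J with s.st i = t, if s.side i = true ∧ x i = true then s.dl i else 0) +
          ∑ i ∈ s.J with s.st i = t, if s.side i = false ∧ x i = true then s.dl i else 0 := by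
        rw [← sum_add_distrib]
        refine sum_congr rfl fun i _ => ?_
        cases s.side i <;> cases x i <;> simp
      omega
    have hp3 : ∑ t ∈ Ico j s.N, (∑ i ∈ s.J with s.st i = t, if x i = true then s.dl i else 0) =
        ∑ i ∈ s.J, if s.st i ∈ Ico j s.N then (if x i = true then s.dl i else 0) else 0 := by
      have := swap_sum s.J s.st (fun i => if x i = true then s.dl i else 0) (fun _ => 1) (Ico j s.N)
      simpa only [one_mul] using this
    rw [hp3] at hp2
    have hY : ∑ t ∈ Ico j s.N, s.psi t * s.Y x t =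
        (∑ i ∈ s.J, if s.st i ∈ Ico j s.N then s.psi (s.st i) * (if x i then s.c i else 0) else 0) +
        ∑ i ∈ s.J, if s.en i ∈ Ico j s.N then s.psi (s.en i) * (if x i then 0 else s.c i) else 0 := by
      unfold Y
      simp only [mul_add, sum_add_distrib]
      rw [swap_sum, swap_sum]
    have hle : (∑ i ∈ s.J, if s.st i ∈ Ico j s.N then s.psi (s.st i) *
        (if x i then s.c i else 0) else 0) + (∑ i ∈ s.J, if s.en i ∈ Ico j s.N then
          s.psi (s.en i) * (if x i then 0 else s.c i) else 0) ≤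
        (∑ i ∈ s.J, if j + 1 ≤ pr i then s.h i else 0) + 2 * ∑ i ∈ s.J, if s.st i ∈ Ico j s.N then
          (if x i = true then s.dl i else 0) else 0 := by
      rw [mul_sum, ← sum_add_distrib, ← sum_add_distrib]
      refine sum_le_sum fun i hi => ?_
      have h1 := ho.st_lt i hi
      have h2 := ho.en_lt i hi
      have h3 := h.dich ho hi
      have h4 := hw i hi
      have h5 : s.psi (s.en i) * s.c i = s.h i := by unfold Sys.h; ring
      simp only [mem_Ico]
      cases hxi : x i with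
      | true =>
        have h6 := (hxt i).1 hxi
        simp only [if_true, mul_zero, ite_self, add_zero]
        by_cases h7 : j ≤ s.st i
        · rw [if_pos (⟨h7, by omega⟩ : j ≤ s.st i ∧ s.st i < s.N), if_pos (by omega : j + 1 ≤ pr i),
            if_pos (⟨h7, by omega⟩ : j ≤ s.st i ∧ s.st i < s.N), h4]
          omega
        · rw [if_neg (by omega), if_neg (by omega)]
          exact Nat.zero_le _
      | false =>
        have h6 : pr i ≠ s.st i + 1 := fun hh => by
          rw [(hxt i).2 hh] at hxi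
          exact Bool.noConfusion hxi
        simp only [Bool.false_eq_true, if_false, mul_zero, ite_self, zero_add, add_zero]
        by_cases h7 : j ≤ s.en i
        · rw [if_pos ⟨h7, h2⟩, if_pos (by omega), h5]
        · rw [if_neg (by omega)]
          exact Nat.zero_le _
    rw [hY]
    omega
  -- linear programming
  have hY0 := sum_Y ho x
  have hfin := lp s.N (fun t => (s.Y x t : ℤ) - s.β t) (by
      rw [sum_sub_distrib, sub_eq_zero]
      have := ho.sum_eq
      rw [← hY0] at this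
      exact_mod_cast this.symm) (by
      intro j hj
      have h1 := key j hj
      have h2 : (2 : ℤ) * ∑ t ∈ Ico j s.N, ((s.N : ℤ) - t) * ((s.Y x t : ℤ) - s.β t) =
          ((∑ t ∈ Ico j s.N, s.psi t * s.Y x t : ℕ) : ℤ) - ((∑ t ∈ Ico j s.N, s.psi t * s.β t : ℕ) : ℤ) := by
        rw [mul_sum, Nat.cast_sum, Nat.cast_sum, ← sum_sub_distrib]
        refine sum_congr rfl fun t ht => ?_
        rw [mem_Ico] at ht
        unfold psi
        push_cast [Nat.cast_sub ht.2.le]
        ring
      have h3 : ((∑ t ∈ Ico j s.N, s.psi t * s.Y x t : ℕ) : ℤ) ≤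
        ((∑ t ∈ Ico j s.N, s.psi t * s.β t : ℕ) : ℤ) := by exact_mod_cast h1
      linarith)
  intro t ht
  have := hfin t ht
  omega

end Sys

end Pool.Agent.Seat68.VL
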