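import Mathlib

/-!
# One vehicle on a line: elementary estimates

Positions on the line are written as pairs `(x, y)`: `x` is the distance from the start point if the
point is on the right of it (and `0` otherwise), `y` is the distance if the point is on the left.
A job is given by `(x, y, release time, handling time)`.
-/

set_option autoImplicit false

namespace Pool.Agent.Seat68.VL

/-- position, release time and handling time of a job -/
abbrev Jb : Type := ℕ × ℕ × ℕ × ℕ

/-- distance on a half line -/
def ds (a b : ℕ) : ℕ := (a - b) + (b - a)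

theorem ds_comm (a b : ℕ) : ds a b = ds b a := by unfold ds; omega

variable {ι : Type}

/-- the finishing time (back at the start point), for a vehicle which is at `(x, y)` at time `t` -/
def fin (d : ι → Jb) : ℕ → ℕ → ℕ → List ι → ℕ
  | x, y, t, [] => t + x + y
  | x, y, t, v :: l => fin d (d v).1 (d v).2.1
      (max (t + (ds x (d v).1 + ds y (d v).2.1)) (d v).2.2.1 + (d v).2.2.2) l

/-- the travel time on the right -/
def trR (d : ι → Jb) : ℕ → List ι → ℕ
  | x, [] => x
  | x, v :: l => ds x (d v).1 + trR d (d v).1 l

/-- the travel time on the left -/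
def trL (d : ι → Jb) : ℕ → List ι → ℕ
  | y, [] => y
  | y, v :: l => ds y (d v).2.1 + trL d (d v).2.1 l

theorem fin_mono (d : ι → Jb) (l : List ι) : ∀ x y t t', t ≤ t' → fin d x y t l ≤ fin d x y t' l := by
  induction l with
  | nil => intro x y t t' h; simp only [fin]; omega
  | cons v l ih => intro x y t t' h; simp only [fin]; exact ih _ _ _ _ (by omega)

theorem le_fin (d : ι → Jb) (l : List ι) : ∀ x y t,
    t + (l.map fun v => (d v).2.2.2).sum + (trR d x l + trL d y l) ≤ fin d x y t l := by
  induction l with
  | nil => intro x y t; simp [fin, trR, trL]; omega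
  | cons v l ih =>
    intro x y t
    simp only [fin, trR, trL, List.map_cons, List.sum_cons]
    refine le_trans ?_ (ih _ _ _)
    have := le_max_left (t + (ds x (d v).1 + ds y (d v).2.1)) (d v).2.2.1
    omega

theorem le_fin_at (d : ι → Jb) (v : ι) (suf : List ι) : ∀ (pre : List ι) x y t,
    (d v).2.2.1 + ((v :: suf).map fun v => (d v).2.2.2).sum + (trR d (d v).1 suf +
      trL d (d v).2.1 suf) ≤ fin d x y t (pre ++ v :: suf) := by
  intro pre
  induction pre with
  | nil =>
    intro x y t
    simp only [List.nil_append, fin, List.map_cons, List.sum_cons]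
    refine le_trans ?_ (le_fin d suf _ _ _)
    have := le_max_right (t + (ds x (d v).1 + ds y (d v).2.1)) (d v).2.2.1
    omega
  | cons w pre ih =>
    intro x y t
    simp only [List.cons_append, fin]
    exact ih _ _ _

/-- the largest right position among the jobs processed after exactly `k'` home jobs -/
def mxR (d : ι → Jb) (isC : ι → Bool) : ℕ → List ι → ℕ → ℕ
  | _, [], _ => 0
  | k, v :: l, k' => max (if k' = k then (d v).1 else 0) (mxR d isC (k + (isC v).toNat) l k')

/-- the largest left position among the jobs processed after exactly `k'` home jobs -/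
def mxL (d : ι → Jb) (isC : ι → Bool) : ℕ → List ι → ℕ → ℕ
  | _, [], _ => 0
  | k, v :: l, k' => max (if k' = k then (d v).2.1 else 0) (mxL d isC (k + (isC v).toNat) l k')

theorem mxR_lt (d : ι → Jb) (isC : ι → Bool) (l : List ι) : ∀ k k', k' < k → mxR d isC k l k' = 0 := by
  induction l with
  | nil => intro k k' _; rfl
  | cons v l ih =>
    intro k k' h
    simp only [mxR]
    rw [if_neg (by omega), ih _ _ (by omega)]
    rfl

theorem mxL_lt (d : ι → Jb) (isC : ι → Bool) (l : List ι) : ∀ k k', k' < k → mxL d isC k l k' = 0 := by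
  induction l with
  | nil => intro k k' _; rfl
  | cons v l ih =>
    intro k k' h
    simp only [mxL]
    rw [if_neg (by omega), ih _ _ (by omega)]
    rfl

theorem mxR_mem (d : ι → Jb) (isC : ι → Bool) (v : ι) (l2 : List ι) : ∀ (l1 : List ι) (k : ℕ),
    (d v).1 ≤ mxR d isC k (l1 ++ v :: l2) (k + l1.countP isC) := by
  intro l1
  induction l1 with
  | nil => intro k; simp [mxR]
  | cons w l1 ih =>
    intro k
    simp only [List.cons_append, mxR]
    refine le_trans ?_ (le_max_right _ _)
    have h := ih (k + (isC w).toNat)
    have e : k + (isC w).toNat + l1.countP isC = k + (w :: l1).countP isC := by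
      rw [List.countP_cons]
      cases isC w <;> simp; omega
    rwa [e] at h

theorem mxL_mem (d : ι → Jb) (isC : ι → Bool) (v : ι) (l2 : List ι) : ∀ (l1 : List ι) (k : ℕ),
    (d v).2.1 ≤ mxL d isC k (l1 ++ v :: l2) (k + l1.countP isC) := by
  intro l1
  induction l1 with
  | nil => intro k; simp [mxL]
  | cons w l1 ih =>
    intro k
    simp only [List.cons_append, mxL]
    refine le_trans ?_ (le_max_right _ _)
    have h := ih (k + (isC w).toNat)
    have e : k + (isC w).toNat + l1.countP isC = k + (w :: l1).countP isC := by
      rw [List.countP_cons]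
      cases isC w <;> simp; omega
    rwa [e] at h

open Finset in
theorem trR_ge (d : ι → Jb) (isC : ι → Bool) (hC : ∀ v, isC v = true → (d v).1 = 0) (n : ℕ)
    (l : List ι) : ∀ k x, 2 * max x (mxR d isC k l k) + 2 * ∑ k' ∈ Ico (k + 1) n, mxR d isC k l k' ≤
      trR d x l + x := by
  induction l with
  | nil =>
    intro k x
    simp [mxR, trR]
    omega
  | cons v l ih =>
    intro k x
    simp only [trR]
    cases hv : isC v with
    | true =>
      have h0 := hC v hv
      have h1 := ih (k + 1) 0
      have e1 : mxR d isC k (v :: l) k = 0 := by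
        simp only [mxR, hv, Bool.toNat_true, if_true, h0]
        rw [mxR_lt d isC l (k + 1) k (by omega)]
        rfl
      have e2 : ∑ k' ∈ Ico (k + 1) n, mxR d isC k (v :: l) k' =
          ∑ k' ∈ Ico (k + 1) n, mxR d isC (k + 1) l k' := by
        refine sum_congr rfl ?_
        intro k' hk'
        rw [mem_Ico] at hk'
        simp only [mxR, hv, Bool.toNat_true]
        rw [if_neg (by omega)]
        simp
      have e3 : ∑ k' ∈ Ico (k + 1) n, mxR d isC (k + 1) l k' ≤
          mxR d isC (k + 1) l (k + 1) + ∑ k' ∈ Ico (k + 1 + 1) n, mxR d isC (k + 1) l k' := by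
        rcases Nat.lt_or_ge (k + 1) n with h | h
        · rw [sum_eq_sum_Ico_succ_bot h]
        · rw [Ico_eq_empty (by omega)]
          simp
      rw [e1, e2, h0]
      have e4 : ds x 0 = x := by unfold ds; omega
      rw [e4]
      have := le_max_right 0 (mxR d isC (k + 1) l (k + 1))
      have h5 : max x 0 = x := by omega
      rw [h5]
      omega
    | false =>
      have h1 := ih k (d v).1
      have e1 : mxR d isC k (v :: l) k = max (d v).1 (mxR d isC k l k) := by
        simp only [mxR, hv, Bool.toNat_false, if_true, Nat.add_zero]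
      have e2 : ∑ k' ∈ Ico (k + 1) n, mxR d isC k (v :: l) k' =
          ∑ k' ∈ Ico (k + 1) n, mxR d isC k l k' := by
        refine sum_congr rfl ?_
        intro k' hk'
        rw [mem_Ico] at hk'
        simp only [mxR, hv, Bool.toNat_false, Nat.add_zero]
        rw [if_neg (by omega)]
        simp
      rw [e1, e2]
      have e4 : ds x (d v).1 = (x - (d v).1) + ((d v).1 - x) := rfl
      rw [e4]
      omega

open Finset in
theorem trL_ge (d : ι → Jb) (isC : ι → Bool) (hC : ∀ v, isC v = true → (d v).2.1 = 0) (n : ℕ)
    (l : List ι) : ∀ k x, 2 * max x (mxL d isC k l k) + 2 * ∑ k' ∈ Ico (k + 1) n, mxL d isC k l k' ≤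
      trL d x l + x := by
  induction l with
  | nil =>
    intro k x
    simp [mxL, trL]
    omega
  | cons v l ih =>
    intro k x
    simp only [trL]
    cases hv : isC v with
    | true =>
      have h0 := hC v hv
      have h1 := ih (k + 1) 0
      have e1 : mxL d isC k (v :: l) k = 0 := by
        simp only [mxL, hv, Bool.toNat_true, if_true, h0]
        rw [mxL_lt d isC l (k + 1) k (by omega)]
        rfl
      have e2 : ∑ k' ∈ Ico (k + 1) n, mxL d isC k (v :: l) k' =
          ∑ k' ∈ Ico (k + 1) n, mxL d isC (k + 1) l k' := by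
        refine sum_congr rfl ?_
        intro k' hk'
        rw [mem_Ico] at hk'
        simp only [mxL, hv, Bool.toNat_true]
        rw [if_neg (by omega)]
        simp
      have e3 : ∑ k' ∈ Ico (k + 1) n, mxL d isC (k + 1) l k' ≤
          mxL d isC (k + 1) l (k + 1) + ∑ k' ∈ Ico (k + 1 + 1) n, mxL d isC (k + 1) l k' := by
        rcases Nat.lt_or_ge (k + 1) n with h | h
        · rw [sum_eq_sum_Ico_succ_bot h]
        · rw [Ico_eq_empty (by omega)]
          simp
      rw [e1, e2, h0]
      have e4 : ds x 0 = x := by unfold ds; omega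
      rw [e4]
      have := le_max_right 0 (mxL d isC (k + 1) l (k + 1))
      have h5 : max x 0 = x := by omega
      rw [h5]
      omega
    | false =>
      have h1 := ih k (d v).2.1
      have e1 : mxL d isC k (v :: l) k = max (d v).2.1 (mxL d isC k l k) := by
        simp only [mxL, hv, Bool.toNat_false, if_true, Nat.add_zero]
      have e2 : ∑ k' ∈ Ico (k + 1) n, mxL d isC k (v :: l) k' =
          ∑ k' ∈ Ico (k + 1) n, mxL d isC k l k' := by
        refine sum_congr rfl ?_
        intro k' hk'
        rw [mem_Ico] at hk'
        simp only [mxL, hv, Bool.toNat_false, Nat.add_zero]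
        rw [if_neg (by omega)]
        simp
      rw [e1, e2]
      have e4 : ds x (d v).2.1 = (x - (d v).2.1) + ((d v).2.1 - x) := rfl
      rw [e4]
      omega

/-- a lower bound for a sum over a list -/
theorem sum_le_list [DecidableEq ι] (f : ι → ℕ) (l : List ι) (h : l.Nodup) (F : Finset ι)
    (hF : ∀ v ∈ F, v ∈ l) : ∑ v ∈ F, f v ≤ (l.map f).sum := by
  rw [← List.sum_toFinset f h]
  exact Finset.sum_le_sum_of_subset fun v hv => List.mem_toFinset.2 (hF v hv)

end Pool.Agent.Seat68.VL
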