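import Pool.Agent.Seat68.VL.Sys

/-!
# The system of an exact cover instance
-/

set_option autoImplicit false

namespace Pool.Agent.Seat68.VL

open Finset

/-- instances of exact cover -/
abbrev In : Type := List (List ℕ) × List Unit

/-- names of the small jobs: `(0, e, j)` is the job of the list `j` after the blocks `1, …, e`,
`(1, 0, j)` is the complementary job of the list `j`, `(2, e, i)` is the carrier after the `i`-th
step of the block `e` -/
abbrev Lb : Type := ℕ × ℕ × ℕ

section Defs

variable (I : In)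

/-- the number of the lists -/
def mm : ℕ := I.1.length

/-- the number of the elements -/
def EE : ℕ := I.2.length

/-- the weights -/
def w (e j : ℕ) : ℕ := 2 + ((I.1.getD j []).filter fun a => decide (e ≤ a)).length

/-- the multiplicity of the element `e` in the list `j` -/
def cnt (e j : ℕ) : ℕ := (I.1.getD j []).count e

/-- the order of the lists in the block `e` -/
def sg (m e i : ℕ) : ℕ := if e % 2 = 0 then i else m - 1 - i

/-- the number of the last round -/
def FF : ℕ := (EE I + 1) * (mm I + 1)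

/-- the side -/
def cside (l : Lb) : Bool :=
  if l.1 = 0 then decide (l.2.1 % 2 = 0) else if l.1 = 1 then false else decide (l.2.1 % 2 = 1)

/-- first rounds -/
def cst (l : Lb) : ℕ :=
  if l.1 = 0 then l.2.1 * (mm I + 1) + sg (mm I) l.2.1 l.2.2
  else if l.1 = 1 then l.2.2 else l.2.1 * (mm I + 1) + l.2.2

/-- last rounds -/
def cen (l : Lb) : ℕ :=
  if l.1 = 0 then
    (if l.2.1 = EE I then FF I else (l.2.1 + 1) * (mm I + 1) + sg (mm I) (l.2.1 + 1) l.2.2)
  else if l.1 = 1 then FF I else l.2.1 * (mm I + 1) + l.2.2 + 1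

/-- weights of the jobs -/
def cc (l : Lb) : ℕ := if l.1 = 0 then w I l.2.1 l.2.2 else if l.1 = 1 then w I 0 l.2.2 else 1

/-- the names of the small jobs -/
def clab : List Lb :=
  ((List.range (EE I + 1)).flatMap fun e => (List.range (mm I)).map fun j => (0, e, j)) ++
  (((List.range (mm I)).map fun j => (1, 0, j)) ++
    (List.range (EE I)).flatMap fun e => (List.range (mm I)).map fun i => (2, e + 1, i))

/-- levels on the right -/
def cR (t : ℕ) : ℕ :=
  if t = FF I then 0 else if t / (mm I + 1) % 2 = 0 then t % (mm I + 1)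
  else mm I - 1 - t % (mm I + 1)

/-- levels on the left -/
def cL (t : ℕ) : ℕ :=
  if t = FF I then 0 else if t / (mm I + 1) = 0 then t % (mm I + 1)
  else if t / (mm I + 1) % 2 = 0 then mm I + (mm I - 1 - t % (mm I + 1))
  else mm I + t % (mm I + 1)

/-- right hand sides, except for the last one -/
def cb0 (t : ℕ) : ℕ :=
  if t % (mm I + 1) < mm I then
    (if t / (mm I + 1) = 0 then w I 0 (t % (mm I + 1))
     else w I (t / (mm I + 1) - 1) (sg (mm I) (t / (mm I + 1)) (t % (mm I + 1))) +
       (if t % (mm I + 1) = 0 then 0 else 1))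
  else 0

/-- right hand sides -/
def cb (t : ℕ) : ℕ :=
  if t = FF I then ((clab I).map (cc I)).sum - ((List.range (FF I)).map (cb0 I)).sum else cb0 I t

/-- an upper bound for the sum of the weights -/
def aa : ℕ := 2 * mm I * (EE I + 1) * (2 + I.1.flatten.length)

/-- the parameter `D` -/
def cD : ℕ := (FF I + 1) * aa I

/-- the parameter `U` -/
def cU : ℕ := 2 * (FF I + 1) * aa I + (FF I + 1) * cD I + 1

/-- the parameter `M` -/
def cM : ℕ := 4 * (FF I + 1) * (2 * mm I * cU I + (FF I + 1) * cD I) + 2 * (FF I + 1) * aa I + 1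

/-- the system -/
def sys : Sys Lb where
  N := FF I + 1
  J := (clab I).toFinset
  side := cside
  st := cst I
  en := cen I
  c := cc I
  rR := cR I
  rL := cL I
  β := cb I
  Λ := 2 * mm I
  D := cD I
  U := cU I
  M := cM I

end Defs

variable {I : In}

theorem mem_clab {l : Lb} : l ∈ clab I ↔ (l.1 = 0 ∧ l.2.1 ≤ EE I ∧ l.2.2 < mm I) ∨
    (l.1 = 1 ∧ l.2.1 = 0 ∧ l.2.2 < mm I) ∨
    (l.1 = 2 ∧ 1 ≤ l.2.1 ∧ l.2.1 ≤ EE I ∧ l.2.2 < mm I) := by
  obtain ⟨a, e, j⟩ := l
  unfold clab
  simp only [List.mem_append, List.mem_flatMap, List.mem_range, List.mem_map, Prod.mk.injEq]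
  constructor
  · rintro (⟨e', he, j', hj, rfl, rfl, rfl⟩ | ⟨j', hj, rfl, rfl, rfl⟩ |
      ⟨e', he, j', hj, rfl, rfl, rfl⟩)
    · exact Or.inl ⟨rfl, by omega, hj⟩
    · exact Or.inr (Or.inl ⟨rfl, rfl, hj⟩)
    · exact Or.inr (Or.inr ⟨rfl, by omega, by omega, hj⟩)
  · rintro (⟨h1, h2, h3⟩ | ⟨h1, h2, h3⟩ | ⟨h1, h2, h3, h4⟩)
    · exact Or.inl ⟨e, by omega, j, h3, h1.symm, rfl, rfl⟩
    · exact Or.inr (Or.inl ⟨j, h3, h1.symm, h2.symm, rfl⟩)
    · exact Or.inr (Or.inr ⟨e - 1, by omega, j, h4, h1.symm, by omega, rfl⟩)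

theorem nodup_clab : (clab I).Nodup := by
  unfold clab
  rw [List.nodup_append, List.nodup_append]
  refine ⟨?_, ⟨?_, ?_, ?_⟩, ?_⟩
  · rw [List.nodup_flatMap]
    refine ⟨fun e _ => List.nodup_range.map (fun a b h => by simpa using h), ?_⟩
    refine List.Pairwise.imp_of_mem ?_ List.nodup_range
    intro a b _ _ hab v ha hb
    rw [List.mem_map] at ha hb
    obtain ⟨j, -, rfl⟩ := ha
    obtain ⟨j', -, h⟩ := hb
    simp only [Prod.mk.injEq] at h
    exact hab h.2.1.symm
  · exact List.nodup_range.map (fun a b h => by simpa using h)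
  · rw [List.nodup_flatMap]
    refine ⟨fun e _ => List.nodup_range.map (fun a b h => by simpa using h), ?_⟩
    refine List.Pairwise.imp_of_mem ?_ List.nodup_range
    intro a b _ _ hab v ha hb
    rw [List.mem_map] at ha hb
    obtain ⟨j, -, rfl⟩ := ha
    obtain ⟨j', -, h⟩ := hb
    simp only [Prod.mk.injEq] at h
    omega
  · intro a ha b hb
    rw [List.mem_map] at ha
    rw [List.mem_flatMap] at hb
    obtain ⟨j, -, rfl⟩ := ha
    obtain ⟨e, -, hb⟩ := hb
    rw [List.mem_map] at hb
    obtain ⟨j', -, rfl⟩ := hb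
    simp
  · intro a ha b hb
    rw [List.mem_flatMap] at ha
    rw [List.mem_append, List.mem_map, List.mem_flatMap] at hb
    obtain ⟨e, -, ha⟩ := ha
    rw [List.mem_map] at ha
    obtain ⟨j, -, rfl⟩ := ha
    rcases hb with ⟨j', -, rfl⟩ | ⟨e', -, hb⟩
    · simp
    · rw [List.mem_map] at hb
      obtain ⟨j', -, rfl⟩ := hb
      simp

theorem dm (m e i : ℕ) (h : i ≤ m) : (e * (m + 1) + i) / (m + 1) = e ∧
    (e * (m + 1) + i) % (m + 1) = i := by
  constructor
  · rw [Nat.add_comm, Nat.add_mul_div_right _ _ (Nat.succ_pos m), Nat.div_eq_of_lt (by omega)]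
    omega
  · rw [Nat.add_comm, Nat.add_mul_mod_self_right, Nat.mod_eq_of_lt (by omega)]

theorem slot_inj {m e i e' i' : ℕ} (h : i ≤ m) (h' : i' ≤ m)
    (he : e * (m + 1) + i = e' * (m + 1) + i') : e = e' ∧ i = i' := by
  have h1 := dm m e i h
  have h2 := dm m e' i' h'
  rw [he] at h1
  exact ⟨h1.1.symm.trans h2.1, h1.2.symm.trans h2.2⟩

theorem slot_le {m e e' : ℕ} (h : e ≤ e') : e * (m + 1) ≤ e' * (m + 1) := Nat.mul_le_mul_right _ h

theorem sg_lt {m e i : ℕ} (h : i < m) : sg m e i < m := by unfold sg; split_ifs <;> omega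

theorem sg_sg {m e i : ℕ} (h : i < m) : sg m e (sg m e i) = i := by
  unfold sg; split_ifs <;> omega

theorem w_succ (e j : ℕ) : w I e j = w I (e + 1) j + cnt I e j := by
  unfold w cnt
  induction I.1.getD j [] with
  | nil => rfl
  | cons a l ih =>
    rw [List.filter_cons, List.filter_cons, List.count_cons]
    rcases Nat.lt_trichotomy a e with h | h | h
    · rw [if_neg (by simp; omega), if_neg (by simp; omega), if_neg (by simp; omega)]
      omega
    · subst h
      rw [if_pos (by simp), if_neg (by simp), if_pos (by simp), List.length_cons]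
      omega
    · rw [if_pos (by simp; omega), if_pos (by simp; omega), if_neg (by simp; omega),
        List.length_cons, List.length_cons]
      omega

theorem w_ge (e j : ℕ) : 2 ≤ w I e j := by unfold w; omega

theorem w_le {e j : ℕ} (hj : j < mm I) : w I e j ≤ 2 + I.1.flatten.length := by
  unfold w
  have h1 := List.length_filter_le (fun a => decide (e ≤ a)) (I.1.getD j [])
  have h2 : (I.1.getD j []).length ≤ I.1.flatten.length := by
    rw [List.getD_eq_getElem _ _ hj]
    exact (List.sublist_flatten_of_mem (List.getElem_mem hj)).length_le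
  omega

theorem cc_le {l : Lb} (hl : l ∈ clab I) : cc I l ≤ 2 + I.1.flatten.length := by
  rw [mem_clab] at hl
  unfold cc
  rcases hl with h | h | h
  · rw [if_pos h.1]
    exact w_le h.2.2
  · rw [if_neg (by omega), if_pos h.1]
    exact w_le h.2.2
  · rw [if_neg (by omega), if_neg (by omega)]
    omega

theorem length_clab : (clab I).length = 2 * mm I * (EE I + 1) := by
  unfold clab
  simp only [List.length_append, List.length_flatMap, List.length_map, List.length_range]
  simp
  ring

theorem sum_cc_le : ((clab I).map (cc I)).sum ≤ aa I := by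
  unfold aa
  rw [← length_clab]
  have : ∀ l : List Lb, (∀ v ∈ l, v ∈ clab I) →
      (l.map (cc I)).sum ≤ l.length * (2 + I.1.flatten.length) := by
    intro l
    induction l with
    | nil => simp
    | cons v l ih =>
      intro h
      rw [List.map_cons, List.sum_cons, List.length_cons, Nat.add_mul]
      have h1 := ih fun u hu => h u (List.mem_cons_of_mem _ hu)
      have h2 := cc_le (h v List.mem_cons_self)
      omega
  exact this _ fun v hv => hv

theorem sum_J (f : Lb → ℕ) : ∑ l ∈ (sys I).J, f l = ((clab I).map f).sum :=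
  List.sum_toFinset f nodup_clab

theorem cR_slot {e i : ℕ} (he : e ≤ EE I) (hi : i ≤ mm I) : cR I (e * (mm I + 1) + i) =
    if e % 2 = 0 then i else mm I - 1 - i := by
  unfold cR
  obtain ⟨h1, h2⟩ := dm (mm I) e i hi
  rw [h1, h2, if_neg]
  intro h
  have := slot_inj hi (Nat.zero_le _) (h.trans (Nat.add_zero _).symm)
  omega

theorem cL_slot {e i : ℕ} (he : e ≤ EE I) (hi : i ≤ mm I) : cL I (e * (mm I + 1) + i) =
    if e = 0 then i else if e % 2 = 0 then mm I + (mm I - 1 - i) else mm I + i := by
  unfold cL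
  obtain ⟨h1, h2⟩ := dm (mm I) e i hi
  rw [h1, h2, if_neg]
  intro h
  have := slot_inj hi (Nat.zero_le _) (h.trans (Nat.add_zero _).symm)
  omega

theorem cb0_slot {e i : ℕ} (hi : i ≤ mm I) : cb0 I (e * (mm I + 1) + i) =
    if i < mm I then (if e = 0 then w I 0 i else w I (e - 1) (sg (mm I) e i) +
      (if i = 0 then 0 else 1)) else 0 := by
  unfold cb0
  obtain ⟨h1, h2⟩ := dm (mm I) e i hi
  rw [h1, h2]

/-- every round before the last one belongs to a block -/
theorem exists_slot {t : ℕ} (ht : t < FF I) : ∃ e i, e ≤ EE I ∧ i ≤ mm I ∧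
    t = e * (mm I + 1) + i := by
  refine ⟨t / (mm I + 1), t % (mm I + 1), ?_, ?_, ?_⟩
  · have : t / (mm I + 1) < EE I + 1 := (Nat.div_lt_iff_lt_mul (Nat.succ_pos _)).2 ht
    omega
  · have := Nat.mod_lt t (show 0 < mm I + 1 by omega)
    omega
  · have := Nat.div_add_mod t (mm I + 1)
    rw [Nat.mul_comm] at this
    exact this.symm

end Pool.Agent.Seat68.VL
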