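import Pool.Agent.Seat68.VL.Sys

/-!
# From solutions of the system to schedules
-/

set_option autoImplicit false

namespace Pool.Agent.Seat68.VL

open Finset

variable {ι : Type}

theorem fin_home (d : ι → Jb) (l : List ι) (x y t : ℕ) :
    fin d x y t l ≤ fin d 0 0 (t + x + y) l := by
  cases l with
  | nil => simp [fin]
  | cons v l =>
    simp only [fin]
    refine fin_mono _ _ _ _ _ _ ?_
    unfold ds
    omega

namespace Sys

variable {s : Sys ι}

/-- the position of a small job on its side -/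
def ps' (s : Sys ι) (i : ι) : ℕ := s.q (s.side i) (s.st i) + s.dl i

/-- the forced job of a side -/
def frc (b : Bool) (t : ℕ) : Ix ι := if b then .A t else .B t

/-- coordinates -/
def cR (b : Bool) (p : ℕ) : ℕ := if b then p else 0

/-- coordinates -/
def cL (b : Bool) (p : ℕ) : ℕ := if b then 0 else p

theorem d_S {i : ι} {b : Bool} (hb : s.side i = b) :
    s.d (.S i) = (cR b (s.ps' i), cL b (s.ps' i), (3 * s.st i + 1) * s.M, s.h i) := by
  subst hb
  unfold cR cL ps'
  simp only [d]
  cases h : s.side i <;> simp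

theorem d_frc (b : Bool) (t : ℕ) :
    s.d (frc b t) = (cR b (s.q b t), cL b (s.q b t), (3 * t + 1) * s.M, s.M) := by
  unfold cR cL frc
  cases b <;> simp [d]

theorem ds_c (b : Bool) {p q : ℕ} (h : p ≤ q) :
    ds (cR b p) (cR b q) + ds (cL b p) (cL b q) = q - p := by
  unfold ds cR cL
  cases b <;> simp <;> omega

theorem fin_out (b : Bool) (P : ℕ) (v : Ix ι) (r hv : ℕ) (hd : s.d v = (cR b P, cL b P, r, hv))
    (l' : List (Ix ι)) (W : List ι) : ∀ (p τ : ℕ), (∀ i ∈ W, s.side i = b) →
    W.Pairwise (fun i j => s.ps' i ≤ s.ps' j) → (∀ i ∈ W, p ≤ s.ps' i) →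
    (∀ i ∈ W, s.ps' i ≤ P) → (∀ i ∈ W, (3 * s.st i + 1) * s.M ≤ τ) → p ≤ P → r ≤ τ →
    fin s.d (cR b p) (cL b p) τ (W.map .S ++ v :: l') ≤
      fin s.d (cR b P) (cL b P) (τ + (P - p) + (W.map s.h).sum + hv) l' := by
  induction W with
  | nil =>
    intro p τ _ _ _ _ _ hp hr
    simp only [List.map_nil, List.nil_append, fin, hd, List.sum_nil]
    rw [ds_c b hp]
    refine fin_mono _ _ _ _ _ _ ?_
    omega
  | cons i W ih =>
    intro p τ h1 h2 h3 h4 h5 hp hr
    have hi : i ∈ i :: W := List.mem_cons_self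
    have e3 := h3 i hi
    have e4 := h4 i hi
    have e5 := h5 i hi
    rw [List.pairwise_cons] at h2
    simp only [List.map_cons, List.cons_append, fin, d_S (h1 i hi), List.sum_cons]
    rw [ds_c b e3]
    have e6 : max (τ + (s.ps' i - p)) ((3 * s.st i + 1) * s.M) = τ + (s.ps' i - p) := by omega
    rw [e6]
    refine (ih (s.ps' i) _ (fun j hj => h1 j (List.mem_cons_of_mem _ hj)) h2.2 h2.1
      (fun j hj => h4 j (List.mem_cons_of_mem _ hj)) (fun j hj => ?_) e4 ?_).trans ?_
    · have := h5 j (List.mem_cons_of_mem _ hj)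
      omega
    · omega
    · refine fin_mono _ _ _ _ _ _ ?_
      omega

variable (s) in
/-- the small jobs collected on the side `b` in the round `t` -/
noncomputable def popL (x : ι → Bool) (b : Bool) (t : ℕ) : List ι :=
  (s.J.filter fun i => s.en i = t ∧ s.side i = b ∧ x i = false).toList.insertionSort
    (fun i j => s.ps' i ≤ s.ps' j)

variable (s) in
/-- the small jobs fetched in advance on the side `b` in the round `t` -/
noncomputable def pushL (x : ι → Bool) (b : Bool) (t : ℕ) : List ι :=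
  (s.J.filter fun i => s.st i = t ∧ s.side i = b ∧ x i = true).toList

theorem mem_popL {x : ι → Bool} {b : Bool} {t : ℕ} {i : ι} :
    i ∈ s.popL x b t ↔ i ∈ s.J ∧ s.en i = t ∧ s.side i = b ∧ x i = false := by
  unfold popL
  rw [(List.perm_insertionSort _ _).mem_iff, Finset.mem_toList, mem_filter]

theorem mem_pushL {x : ι → Bool} {b : Bool} {t : ℕ} {i : ι} :
    i ∈ s.pushL x b t ↔ i ∈ s.J ∧ s.st i = t ∧ s.side i = b ∧ x i = true := by
  unfold pushL
  rw [Finset.mem_toList, mem_filter]

theorem nodup_popL {x : ι → Bool} {b : Bool} {t : ℕ} : (s.popL x b t).Nodup := by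
  unfold popL
  exact (List.perm_insertionSort _ _).nodup_iff.2 (nodup_toList _)

theorem nodup_pushL {x : ι → Bool} {b : Bool} {t : ℕ} : (s.pushL x b t).Nodup := nodup_toList _

theorem sorted_popL {x : ι → Bool} {b : Bool} {t : ℕ} :
    (s.popL x b t).Pairwise (fun i j => s.ps' i ≤ s.ps' j) := by
  unfold popL
  have : Std.Total (fun i j => s.ps' i ≤ s.ps' j) := ⟨fun a b => le_total _ _⟩
  have : IsTrans ι (fun i j => s.ps' i ≤ s.ps' j) := ⟨fun a b c => le_trans⟩
  exact List.pairwise_insertionSort _ _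

theorem sum_popL {x : ι → Bool} {b : Bool} {t : ℕ} (f : ι → ℕ) :
    ((s.popL x b t).map f).sum = ∑ i ∈ s.J with s.en i = t ∧ s.side i = b ∧ x i = false, f i := by
  unfold popL
  rw [((List.perm_insertionSort _ _).map f).sum_eq, Finset.sum_map_toList]

theorem sum_pushL {x : ι → Bool} {b : Bool} {t : ℕ} (f : ι → ℕ) :
    ((s.pushL x b t).map f).sum = ∑ i ∈ s.J with s.st i = t ∧ s.side i = b ∧ x i = true, f i := by
  unfold pushL
  rw [Finset.sum_map_toList]

theorem pushL_cases (ho : s.Ok) (x : ι → Bool) (b : Bool) (t : ℕ) :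
    s.pushL x b t = [] ∨ ∃ i, s.pushL x b t = [i] := by
  rcases h : s.pushL x b t with _ | ⟨i, _ | ⟨j, l⟩⟩
  · exact Or.inl rfl
  · exact Or.inr ⟨i, rfl⟩
  · exfalso
    have hi : i ∈ s.pushL x b t := by rw [h]; simp
    have hj : j ∈ s.pushL x b t := by rw [h]; simp
    have hn := s.nodup_pushL (x := x) (b := b) (t := t)
    rw [h] at hn
    rw [mem_pushL] at hi hj
    have := ho.uniq i hi.1 j hj.1 (by rw [hi.2.2.1, hj.2.2.1]) (by rw [hi.2.1, hj.2.1])
    subst this
    simp at hn

/-- one side of a round -/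
noncomputable def half (s : Sys ι) (x : ι → Bool) (b : Bool) (t : ℕ) : List (Ix ι) :=
  (s.popL x b t).map .S ++ frc b t :: (s.pushL x b t).map .S

theorem ps_le (ho : s.Ok) {i : ι} (hi : i ∈ s.J) : s.ps' i ≤ s.q (s.side i) (s.en i) := by
  have h1 := ho.lev_en i hi
  have h2 := ho.hD i hi
  have h3 := ho.st_lt i hi
  unfold ps' q
  have e1 : (s.Λ - s.r (s.side i) (s.st i)) * s.U ≤ (s.Λ - s.r (s.side i) (s.en i)) * s.U :=
    Nat.mul_le_mul_right _ (by omega)
  have e2 : (s.st i + 1) * s.D ≤ s.en i * s.D := Nat.mul_le_mul_right _ h3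
  have e3 : (s.st i + 1) * s.D = s.st i * s.D + s.D := by ring
  omega

theorem fin_half (ho : s.Ok) (x : ι → Bool) (b : Bool) (t τ : ℕ) (hτ : (3 * t + 1) * s.M ≤ τ)
    (l : List (Ix ι)) : fin s.d 0 0 τ (s.half x b t ++ l) ≤
      fin s.d 0 0 (τ + 2 * s.q b t + s.M + (∑ i ∈ s.J with s.en i = t ∧ s.side i = b ∧ x i = false,
        s.h i) + ∑ i ∈ s.J with s.st i = t ∧ s.side i = b ∧ x i = true, (2 * s.dl i + s.h i)) l := by
  have h0 : cR b 0 = 0 ∧ cL b 0 = 0 := by unfold cR cL; cases b <;> simp
  have h1 := fin_out (s := s) b (s.q b t) (frc b t) _ _ (d_frc b t) ((s.pushL x b t).map .S ++ l)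
    (s.popL x b t) 0 τ (fun i hi => (mem_popL.1 hi).2.2.1) sorted_popL (fun i _ => Nat.zero_le _)
    (fun i hi => by
      rw [mem_popL] at hi
      have := ps_le ho hi.1
      rwa [hi.2.2.1, hi.2.1] at this)
    (fun i hi => by
      rw [mem_popL] at hi
      have h2 := ho.st_lt i hi.1
      rw [hi.2.1] at h2
      have : (3 * s.st i + 1) * s.M ≤ (3 * t + 1) * s.M := Nat.mul_le_mul_right _ (by omega)
      omega) (Nat.zero_le _) hτ
  rw [h0.1, h0.2, sum_popL] at h1
  unfold half
  rw [List.append_assoc, List.cons_append]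
  refine h1.trans ?_
  rw [← sum_pushL (fun i => 2 * s.dl i + s.h i)]
  rcases pushL_cases ho x b t with h2 | ⟨i, h2⟩
  · rw [h2]
    simp only [List.map_nil, List.nil_append, List.sum_nil]
    refine (fin_home _ _ _ _ _).trans (fin_mono _ _ _ _ _ _ ?_)
    unfold cR cL
    cases b <;> simp <;> omega
  · have hi : i ∈ s.pushL x b t := by rw [h2]; simp
    rw [mem_pushL] at hi
    rw [h2]
    have h3 := fin_out (s := s) b (s.ps' i) (.S i) _ _ (d_S hi.2.2.1) l [] (s.q b t)
      (τ + (s.q b t - 0) + (∑ i ∈ s.J with s.en i = t ∧ s.side i = b ∧ x i = false, s.h i) + s.M)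
      (by simp) List.Pairwise.nil (by simp) (by simp) (by simp)
      (by unfold ps'; rw [hi.2.2.1, hi.2.1]; omega) (by rw [hi.2.1]; omega)
    simp only [List.map_nil, List.nil_append, List.sum_nil] at h3
    simp only [List.map_cons, List.map_nil, List.cons_append, List.nil_append, List.sum_cons,
      List.sum_nil]
    refine h3.trans ((fin_home _ _ _ _ _).trans (fin_mono _ _ _ _ _ _ ?_))
    have h4 : s.ps' i = s.q b t + s.dl i := by unfold ps'; rw [hi.2.2.1, hi.2.1]
    have h5 : cR b (s.ps' i) + cL b (s.ps' i) = s.ps' i := by unfold cR cL; cases b <;> simp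
    omega

/-- a round -/
noncomputable def rnd (s : Sys ι) (x : ι → Bool) (t : ℕ) : List (Ix ι) :=
  .C t :: (s.half x true t ++ s.half x false t)

theorem psi_Y (ho : s.Ok) (x : ι → Bool) (t : ℕ) :
    ((∑ i ∈ s.J with s.en i = t ∧ s.side i = true ∧ x i = false, s.h i) +
      (∑ i ∈ s.J with s.st i = t ∧ s.side i = true ∧ x i = true, (2 * s.dl i + s.h i))) +
    ((∑ i ∈ s.J with s.en i = t ∧ s.side i = false ∧ x i = false, s.h i) +
      (∑ i ∈ s.J with s.st i = t ∧ s.side i = false ∧ x i = true, (2 * s.dl i + s.h i))) =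
    s.psi t * s.Y x t := by
  unfold Y
  rw [mul_add, mul_sum, mul_sum]
  simp only [sum_filter]
  rw [← sum_add_distrib, ← sum_add_distrib, ← sum_add_distrib, ← sum_add_distrib]
  refine sum_congr rfl fun i hi => ?_
  have h1 := ho.st_lt i hi
  have h2 := ho.en_lt i hi
  have hw : s.psi (s.st i) * s.c i = 2 * s.dl i + s.h i := by
    unfold Sys.h psi dl
    obtain ⟨a, ha⟩ := Nat.exists_eq_add_of_lt h1
    obtain ⟨b, hb⟩ := Nat.exists_eq_add_of_lt h2
    have e1 : s.N - s.st i = a + 1 + (b + 1) := by omega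
    have e2 : s.en i - s.st i = a + 1 := by omega
    have e3 : s.N - s.en i = b + 1 := by omega
    rw [e1, e2, e3]
    ring
  have hw2 : s.psi (s.en i) * s.c i = s.h i := by unfold Sys.h; ring
  by_cases e1 : s.st i = t <;> by_cases e2 : s.en i = t <;> cases hx : x i <;>
    cases hs : s.side i <;> simp [e1, e2] <;> first
      | (subst e1; exact hw.symm)
      | (subst e2; exact hw2.symm)

theorem fin_rnd (ho : s.Ok) (x : ι → Bool) (t : ℕ) (hx : s.Y x t = s.β t) (l : List (Ix ι)) :
    fin s.d 0 0 (s.T t) (s.rnd x t ++ l) ≤ fin s.d 0 0 (s.T (t + 1)) l := by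
  unfold rnd
  have h1 := s.le_T t
  have h2 : (3 * t + 1) * s.M = 3 * t * s.M + s.M := by ring
  rw [List.cons_append, List.append_assoc]
  simp only [fin, d]
  have e0 : max (s.T t + (ds 0 0 + ds 0 0)) (s.T t) + s.M = s.T t + s.M := by
    unfold ds
    omega
  rw [e0]
  refine (fin_half ho x true t _ (by omega) _).trans ((fin_half ho x false t _ (by omega) _).trans
    (fin_mono _ _ _ _ _ _ ?_))
  rw [T_succ]
  unfold stp
  have h3 := psi_Y ho x t
  rw [hx] at h3
  omega

/-- **From solutions to schedules.** -/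
theorem isL_of_solvable (ho : s.Ok) (h : s.Solvable) : ∃ l, s.IsL l := by
  obtain ⟨x, hx⟩ := h
  refine ⟨(List.range s.N).flatMap (s.rnd x), ?_, ?_, ?_⟩
  · set tg : Ix ι → ℕ := fun v => match v with
      | .C t => t
      | .A t => t
      | .B t => t
      | .S i => if x i then s.st i else s.en i with htg
    have htag : ∀ t, ∀ v ∈ s.rnd x t, tg v = t := by
      intro t v hv
      unfold rnd half frc at hv
      simp only [List.mem_cons, List.mem_append, List.mem_map, mem_popL, mem_pushL] at hv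
      rcases hv with rfl | (⟨i, hi, rfl⟩ | rfl | ⟨i, hi, rfl⟩) | ⟨i, hi, rfl⟩ | rfl | ⟨i, hi, rfl⟩ <;>
        simp_all
    rw [List.nodup_flatMap]
    constructor
    · intro t _
      unfold rnd half frc
      have hS : Function.Injective (Ix.S : ι → Ix ι) := fun a b h => by injection h
      rw [List.nodup_cons]
      constructor
      · simp
      · rw [List.nodup_append, List.nodup_append, List.nodup_append, List.nodup_cons, List.nodup_cons]
        refine ⟨⟨nodup_popL.map hS, ⟨by simp, nodup_pushL.map hS⟩, ?_⟩,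
          ⟨nodup_popL.map hS, ⟨by simp, nodup_pushL.map hS⟩, ?_⟩, ?_⟩
        · intro a ha b hb
          simp only [List.mem_map, mem_popL, List.mem_cons, mem_pushL] at ha hb
          rintro rfl
          obtain ⟨i, hi, rfl⟩ := ha
          rcases hb with hb | ⟨j, hj, hb⟩
          · simp at hb
          · injection hb with hb
            subst hb
            simp_all
        · intro a ha b hb
          simp only [List.mem_map, mem_popL, List.mem_cons, mem_pushL] at ha hb
          rintro rfl
          obtain ⟨i, hi, rfl⟩ := ha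
          rcases hb with hb | ⟨j, hj, hb⟩
          · simp at hb
          · injection hb with hb
            subst hb
            simp_all
        · intro a ha b hb
          simp only [List.mem_append, List.mem_map, mem_popL, List.mem_cons, mem_pushL] at ha hb
          rintro rfl
          rcases ha with ⟨i, hi, rfl⟩ | rfl | ⟨i, hi, rfl⟩ <;>
            rcases hb with ⟨j, hj, hb⟩ | hb | ⟨j, hj, hb⟩ <;>
            simp_all
    · refine List.Pairwise.imp_of_mem ?_ List.nodup_range
      intro a b _ _ hab v ha hb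
      exact hab ((htag a v ha).symm.trans (htag b v hb))
  · intro v
    rw [List.mem_flatMap]
    constructor
    · rintro ⟨t, ht, hv⟩
      rw [List.mem_range] at ht
      unfold rnd half frc at hv
      simp only [List.mem_cons, List.mem_append, List.mem_map, mem_popL, mem_pushL] at hv
      rcases hv with rfl | (⟨i, hi, rfl⟩ | rfl | ⟨i, hi, rfl⟩) | ⟨i, hi, rfl⟩ | rfl | ⟨i, hi, rfl⟩ <;>
        simp_all [Valid]
    · intro hv
      unfold rnd half frc
      simp only [List.mem_cons, List.mem_append, List.mem_map, mem_popL, mem_pushL]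
      cases v with
      | C t => exact ⟨t, List.mem_range.2 hv, Or.inl rfl⟩
      | A t => exact ⟨t, List.mem_range.2 hv, by simp⟩
      | B t => exact ⟨t, List.mem_range.2 hv, by simp⟩
      | S i =>
        have hi : i ∈ s.J := hv
        have h1 := ho.st_lt i hi
        have h2 := ho.en_lt i hi
        cases hxi : x i <;> cases hs : s.side i
        · exact ⟨s.en i, List.mem_range.2 h2, Or.inr (Or.inr (Or.inl ⟨i, ⟨hi, rfl, hs, hxi⟩, rfl⟩))⟩
        · exact ⟨s.en i, List.mem_range.2 h2, Or.inr (Or.inl (Or.inl ⟨i, ⟨hi, rfl, hs, hxi⟩, rfl⟩))⟩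
        · exact ⟨s.st i, List.mem_range.2 (by omega),
            Or.inr (Or.inr (Or.inr (Or.inr ⟨i, ⟨hi, rfl, hs, hxi⟩, rfl⟩)))⟩
        · exact ⟨s.st i, List.mem_range.2 (by omega),
            Or.inr (Or.inl (Or.inr (Or.inr ⟨i, ⟨hi, rfl, hs, hxi⟩, rfl⟩)))⟩
  · have key : ∀ k, k ≤ s.N → ∀ l, fin s.d 0 0 (s.T (s.N - k))
        ((List.range' (s.N - k) k).flatMap (s.rnd x) ++ l) ≤ fin s.d 0 0 (s.T s.N) l := by
      intro k
      induction k with
      | zero => intro _ l; simp
      | succ k ih =>
        intro hk l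
        have e : s.N - (k + 1) + 1 = s.N - k := by omega
        rw [List.range'_succ, List.flatMap_cons, List.append_assoc]
        refine (fin_rnd ho x _ (hx _ (by omega)) _).trans ?_
        rw [e]
        exact ih (by omega) l
    have h1 := key s.N le_rfl []
    rw [Nat.sub_self, List.append_nil, ← List.range_eq_range'] at h1
    have h2 : s.T 0 = 0 := by unfold T; simp
    rw [h2] at h1
    simpa [fin] using h1

end Sys

end Pool.Agent.Seat68.VL
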