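import Pool.Agent.Seat68.VL.ConcOk
import Pool.Agent.Seat68.VL.Back
import Pool.Agent.Seat68.VL.Fwd
import Pool.Agent.H648R3.SSP.EC

/-!
# The system of an exact cover instance is solvable if and only if there is an exact cover
-/

set_option autoImplicit false

namespace Pool.Agent.Seat68.VL

open Finset Pool.Agent.NPC Pool.Agent.NPC.SSP648

variable {I : In}

/-- truth values as numbers -/
def bn (b : Bool) : ℕ := if b then 1 else 0

theorem push0 {i : ℕ} (hi : i < mm I) (f : Lb → ℕ) :
    ∑ l ∈ (sys I).J with (sys I).st l = 0 * (mm I + 1) + i, f l = f (0, 0, i) + f (1, 0, i) := by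
  have h : ((sys I).J.filter fun l => (sys I).st l = 0 * (mm I + 1) + i) =
      {(0, 0, i), (1, 0, i)} := by
    ext l
    obtain ⟨a, e, j⟩ := l
    rw [mem_filter, mem_J, mem_clab, mem_insert, mem_singleton]
    simp only [Prod.mk.injEq]
    constructor
    · rintro ⟨h1 | h1 | h1, h2⟩
      · obtain ⟨rfl, h3, h4⟩ := h1
        have h5 : e * (mm I + 1) + sg (mm I) e j = 0 * (mm I + 1) + i := h2
        obtain ⟨rfl, h6⟩ := slot_inj (sg_lt h4).le hi.le h5
        unfold sg at h6
        simp only [Nat.zero_mod, if_true] at h6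
        exact Or.inl ⟨rfl, rfl, h6⟩
      · obtain ⟨rfl, rfl, h4⟩ := h1
        have h5 : j = 0 * (mm I + 1) + i := h2
        exact Or.inr ⟨rfl, rfl, by omega⟩
      · obtain ⟨rfl, h3, h3', h4⟩ := h1
        have h5 : e * (mm I + 1) + j = 0 * (mm I + 1) + i := h2
        have := slot_inj h4.le hi.le h5
        omega
    · rintro (⟨rfl, rfl, rfl⟩ | ⟨rfl, rfl, rfl⟩)
      · refine ⟨Or.inl ⟨rfl, Nat.zero_le _, hi⟩, ?_⟩
        show 0 * (mm I + 1) + sg (mm I) 0 j = _
        rfl
      · refine ⟨Or.inr (Or.inl ⟨rfl, rfl, hi⟩), ?_⟩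
        show j = _
        omega
  rw [h, sum_pair (by simp)]

theorem push1 {e i : ℕ} (he : 1 ≤ e) (heE : e ≤ EE I) (hi : i < mm I) (f : Lb → ℕ) :
    ∑ l ∈ (sys I).J with (sys I).st l = e * (mm I + 1) + i, f l =
      f (0, e, sg (mm I) e i) + f (2, e, i) := by
  have h : ((sys I).J.filter fun l => (sys I).st l = e * (mm I + 1) + i) =
      {(0, e, sg (mm I) e i), (2, e, i)} := by
    ext l
    obtain ⟨a, e', j⟩ := l
    rw [mem_filter, mem_J, mem_clab, mem_insert, mem_singleton]
    simp only [Prod.mk.injEq]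
    constructor
    · rintro ⟨h1 | h1 | h1, h2⟩
      · obtain ⟨rfl, h3, h4⟩ := h1
        have h5 : e' * (mm I + 1) + sg (mm I) e' j = e * (mm I + 1) + i := h2
        obtain ⟨rfl, h6⟩ := slot_inj (sg_lt h4).le hi.le h5
        refine Or.inl ⟨rfl, rfl, ?_⟩
        rw [← h6, sg_sg h4]
      · obtain ⟨rfl, rfl, h4⟩ := h1
        have h5 : j = e * (mm I + 1) + i := h2
        have h6 := slot_inj (e := 0) h4.le hi.le (by rw [← h5]; omega)
        omega
      · obtain ⟨rfl, h3, h3', h4⟩ := h1
        have h5 : e' * (mm I + 1) + j = e * (mm I + 1) + i := h2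
        obtain ⟨rfl, rfl⟩ := slot_inj h4.le hi.le h5
        exact Or.inr ⟨rfl, rfl, rfl⟩
    · rintro (⟨rfl, rfl, rfl⟩ | ⟨rfl, rfl, rfl⟩)
      · refine ⟨Or.inl ⟨rfl, heE, sg_lt hi⟩, ?_⟩
        show e' * (mm I + 1) + sg (mm I) e' (sg (mm I) e' i) = _
        rw [sg_sg hi]
      · exact ⟨Or.inr (Or.inr ⟨rfl, he, heE, hi⟩), rfl⟩
  rw [h, sum_pair (by simp)]

theorem pushm {e : ℕ} (f : Lb → ℕ) :
    ∑ l ∈ (sys I).J with (sys I).st l = e * (mm I + 1) + mm I, f l = 0 := by
  refine sum_eq_zero ?_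
  intro l hl
  exfalso
  obtain ⟨a, e', j⟩ := l
  rw [mem_filter, mem_J, mem_clab] at hl
  simp only at hl
  obtain ⟨h1 | h1 | h1, h2⟩ := hl
  · obtain ⟨rfl, h3, h4⟩ := h1
    have h5 : e' * (mm I + 1) + sg (mm I) e' j = e * (mm I + 1) + mm I := h2
    obtain ⟨rfl, h6⟩ := slot_inj (sg_lt h4).le le_rfl h5
    have := sg_lt (e := e') h4
    omega
  · obtain ⟨rfl, rfl, h4⟩ := h1
    have h5 : j = e * (mm I + 1) + mm I := h2
    omega
  · obtain ⟨rfl, h3, h3', h4⟩ := h1
    have h5 : e' * (mm I + 1) + j = e * (mm I + 1) + mm I := h2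
    have := slot_inj h4.le le_rfl h5
    omega

theorem pop0 {i : ℕ} (hi : i ≤ mm I) (f : Lb → ℕ) :
    ∑ l ∈ (sys I).J with (sys I).en l = 0 * (mm I + 1) + i, f l = 0 := by
  refine sum_eq_zero ?_
  intro l hl
  exfalso
  obtain ⟨a, e', j⟩ := l
  rw [mem_filter, mem_J, mem_clab] at hl
  have hF := FF_ge (I := I) (e := 0) (Nat.zero_le _)
  simp only at hl
  obtain ⟨h1 | h1 | h1, h2⟩ := hl
  · obtain ⟨rfl, h3, h4⟩ := h1
    have h5 : (if e' = EE I then FF I else (e' + 1) * (mm I + 1) + sg (mm I) (e' + 1) j) =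
      0 * (mm I + 1) + i := h2
    have e1 : (e' + 1) * (mm I + 1) = e' * (mm I + 1) + (mm I + 1) := by ring
    split_ifs at h5 <;> omega
  · obtain ⟨rfl, rfl, h4⟩ := h1
    have h5 : FF I = 0 * (mm I + 1) + i := h2
    omega
  · obtain ⟨rfl, h3, h3', h4⟩ := h1
    have h5 : e' * (mm I + 1) + (j + 1) = 0 * (mm I + 1) + i := h2
    have := slot_inj (by omega) hi h5
    omega

theorem en_wire {e e' j i : ℕ} (hj : j < mm I) (he : 1 ≤ e) (heE : e ≤ EE I) (_ : e' ≤ EE I)
    (hi : i ≤ mm I) (h : cen I (0, e', j) = e * (mm I + 1) + i) :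
    e' = e - 1 ∧ i < mm I ∧ j = sg (mm I) e i := by
  have h5 : (if e' = EE I then FF I else (e' + 1) * (mm I + 1) + sg (mm I) (e' + 1) j) =
    e * (mm I + 1) + i := h
  split_ifs at h5 with h6
  · have := FF_ge heE
    omega
  · obtain ⟨h7, h8⟩ := slot_inj (sg_lt hj).le hi h5
    subst h7
    subst h8
    exact ⟨by omega, sg_lt hj, (sg_sg hj).symm⟩

theorem cen_wire {e i : ℕ} (he : 1 ≤ e) (heE : e ≤ EE I) (hi : i < mm I) :
    cen I (0, e - 1, sg (mm I) e i) = e * (mm I + 1) + i := by
  show (if e - 1 = EE I then FF I else (e - 1 + 1) * (mm I + 1) +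
    sg (mm I) (e - 1 + 1) (sg (mm I) e i)) = _
  have : e - 1 + 1 = e := by omega
  rw [if_neg (by omega), this, sg_sg hi]

theorem pop1 {e : ℕ} (he : 1 ≤ e) (heE : e ≤ EE I) (hm : 0 < mm I) (f : Lb → ℕ) :
    ∑ l ∈ (sys I).J with (sys I).en l = e * (mm I + 1) + 0, f l = f (0, e - 1, sg (mm I) e 0) := by
  have h : ((sys I).J.filter fun l => (sys I).en l = e * (mm I + 1) + 0) =
      {(0, e - 1, sg (mm I) e 0)} := by
    ext l
    obtain ⟨a, e', j⟩ := l
    rw [mem_filter, mem_J, mem_clab, mem_singleton]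
    simp only [Prod.mk.injEq]
    constructor
    · rintro ⟨h1 | h1 | h1, h2⟩
      · obtain ⟨rfl, h3, h4⟩ := h1
        have := en_wire h4 he heE h3 (Nat.zero_le _) h2
        exact ⟨rfl, this.1, this.2.2⟩
      · obtain ⟨rfl, rfl, h4⟩ := h1
        have h5 : FF I = e * (mm I + 1) + 0 := h2
        have := FF_ge heE
        omega
      · obtain ⟨rfl, h3, h3', h4⟩ := h1
        have h5 : e' * (mm I + 1) + (j + 1) = e * (mm I + 1) + 0 := h2
        have := slot_inj (by omega) (Nat.zero_le _) h5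
        omega
    · rintro ⟨rfl, rfl, rfl⟩
      exact ⟨Or.inl ⟨rfl, by omega, sg_lt hm⟩, cen_wire he heE hm⟩
  rw [h, sum_singleton]

theorem pop2 {e i : ℕ} (he : 1 ≤ e) (heE : e ≤ EE I) (hi0 : 0 < i) (hi : i < mm I) (f : Lb → ℕ) :
    ∑ l ∈ (sys I).J with (sys I).en l = e * (mm I + 1) + i, f l =
      f (0, e - 1, sg (mm I) e i) + f (2, e, i - 1) := by
  have h : ((sys I).J.filter fun l => (sys I).en l = e * (mm I + 1) + i) =
      {(0, e - 1, sg (mm I) e i), (2, e, i - 1)} := by
    ext l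
    obtain ⟨a, e', j⟩ := l
    rw [mem_filter, mem_J, mem_clab, mem_insert, mem_singleton]
    simp only [Prod.mk.injEq]
    constructor
    · rintro ⟨h1 | h1 | h1, h2⟩
      · obtain ⟨rfl, h3, h4⟩ := h1
        have := en_wire h4 he heE h3 hi.le h2
        exact Or.inl ⟨rfl, this.1, this.2.2⟩
      · obtain ⟨rfl, rfl, h4⟩ := h1
        have h5 : FF I = e * (mm I + 1) + i := h2
        have := FF_ge heE
        omega
      · obtain ⟨rfl, h3, h3', h4⟩ := h1
        have h5 : e' * (mm I + 1) + (j + 1) = e * (mm I + 1) + i := h2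
        have := slot_inj (by omega) hi.le h5
        exact Or.inr ⟨rfl, this.1, by omega⟩
    · rintro (⟨rfl, rfl, rfl⟩ | ⟨rfl, rfl, rfl⟩)
      · exact ⟨Or.inl ⟨rfl, by omega, sg_lt hi⟩, cen_wire he heE hi⟩
      · refine ⟨Or.inr (Or.inr ⟨rfl, he, heE, by omega⟩), ?_⟩
        show e' * (mm I + 1) + (i - 1) + 1 = _
        omega
  rw [h, sum_pair (by simp)]

theorem popm {e : ℕ} (he : 1 ≤ e) (heE : e ≤ EE I) (hm : 0 < mm I) (f : Lb → ℕ) :
    ∑ l ∈ (sys I).J with (sys I).en l = e * (mm I + 1) + mm I, f l = f (2, e, mm I - 1) := by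
  have h : ((sys I).J.filter fun l => (sys I).en l = e * (mm I + 1) + mm I) =
      {(2, e, mm I - 1)} := by
    ext l
    obtain ⟨a, e', j⟩ := l
    rw [mem_filter, mem_J, mem_clab, mem_singleton]
    simp only [Prod.mk.injEq]
    constructor
    · rintro ⟨h1 | h1 | h1, h2⟩
      · obtain ⟨rfl, h3, h4⟩ := h1
        have := en_wire h4 he heE h3 le_rfl h2
        omega
      · obtain ⟨rfl, rfl, h4⟩ := h1
        have h5 : FF I = e * (mm I + 1) + mm I := h2
        have := FF_ge heE
        omega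
      · obtain ⟨rfl, h3, h3', h4⟩ := h1
        have h5 : e' * (mm I + 1) + (j + 1) = e * (mm I + 1) + mm I := h2
        have := slot_inj (by omega) le_rfl h5
        exact ⟨rfl, this.1, by omega⟩
    · rintro ⟨rfl, rfl, rfl⟩
      refine ⟨Or.inr (Or.inr ⟨rfl, he, heE, by omega⟩), ?_⟩
      show e' * (mm I + 1) + (mm I - 1) + 1 = _
      omega
  rw [h, sum_singleton]

theorem slot_lt {e i : ℕ} (he : e ≤ EE I) (hi : i ≤ mm I) : e * (mm I + 1) + i < FF I := by
  have := FF_ge he
  omega

theorem beta_slot {e i : ℕ} (he : e ≤ EE I) (hi : i ≤ mm I) :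
    (sys I).β (e * (mm I + 1) + i) = cb0 I (e * (mm I + 1) + i) := by
  show cb I _ = _
  unfold cb
  have := slot_lt he hi
  rw [if_neg (by omega)]

theorem cc0 (e j : ℕ) : (sys I).c (0, e, j) = w I e j := rfl

theorem cc1 (e j : ℕ) : (sys I).c (1, e, j) = w I 0 j := rfl

theorem cc2 (e j : ℕ) : (sys I).c (2, e, j) = 1 := rfl

theorem sel_count (b : List Bool) (hb : b.length = mm I) (e : ℕ) : (selL b I.1).count e =
    ∑ j ∈ range (mm I), if b.getD j false then cnt I e j else 0 := by
  have h1 := eq_map_range b (mm I) hb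
  have h2 : I.1 = (List.range (mm I)).map fun j => I.1.getD j [] := by
    apply List.ext_getElem
    · simp [mm]
    · intro i h1 h2
      simp [List.getD_eq_getElem?_getD, h1]
  conv_lhs => rw [h1, h2]
  rw [selL_map, count_sel]
  rfl

/-- from solutions of the system to exact covers -/
theorem ec_of_solvable (hm : 0 < mm I) (h : (sys I).Solvable) : EC I := by
  obtain ⟨x, hx⟩ := h
  have hN : (sys I).N = FF I + 1 := rfl
  -- a block
  have block : ∀ e, 1 ≤ e → e ≤ EE I → ∀ i, i < mm I →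
      x (0, e, sg (mm I) e i) = x (0, e - 1, sg (mm I) e i) ∧
      bn (x (2, e, i)) = ∑ k ∈ range (i + 1),
        if x (0, e - 1, sg (mm I) e k) then cnt I (e - 1) (sg (mm I) e k) else 0 := by
    intro e he heE i
    induction i with
    | zero =>
      intro hi
      have h1 := hx (e * (mm I + 1) + 0) (by rw [hN]; have := slot_lt heE (Nat.zero_le _); omega)
      rw [beta_slot heE (Nat.zero_le _), cb0_slot (Nat.zero_le _), if_pos hm, if_neg (by omega)] at h1
      unfold Sys.Y at h1
      rw [push1 he heE hm, pop1 he heE hm] at h1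
      have h2 := w_succ (I := I) (e - 1) (sg (mm I) e 0)
      have e1 : e - 1 + 1 = e := by omega
      rw [e1] at h2
      have h3 := w_ge (I := I) e (sg (mm I) e 0)
      rw [zero_add, sum_range_one]
      rw [cc0, cc0, cc2] at h1
      unfold bn
      cases hx1 : x (0, e, sg (mm I) e 0) <;> cases hx2 : x (0, e - 1, sg (mm I) e 0) <;>
        cases hx3 : x (2, e, 0) <;> simp [hx1, hx2, hx3] at h1 ⊢ <;> omega
    | succ i ih =>
      intro hi
      obtain ⟨-, ih2⟩ := ih (by omega)
      have h1 := hx (e * (mm I + 1) + (i + 1)) (by rw [hN]; have := slot_lt heE hi.le; omega)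
      rw [beta_slot heE hi.le, cb0_slot hi.le, if_pos hi, if_neg (by omega : ¬ e = 0),
        if_neg (by omega : ¬ i + 1 = 0)] at h1
      unfold Sys.Y at h1
      rw [push1 (i := i + 1) he heE hi, pop2 (i := i + 1) he heE (by omega) hi] at h1
      have h2 := w_succ (I := I) (e - 1) (sg (mm I) e (i + 1))
      have e1 : e - 1 + 1 = e := by omega
      rw [e1] at h2
      have h3 := w_ge (I := I) e (sg (mm I) e (i + 1))
      rw [sum_range_succ, ← ih2]
      rw [cc0, cc0, cc2, cc2, Nat.add_sub_cancel] at h1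
      unfold bn
      cases hx1 : x (0, e, sg (mm I) e (i + 1)) <;>
        cases hx2 : x (0, e - 1, sg (mm I) e (i + 1)) <;>
        cases hx3 : x (2, e, i + 1) <;> cases hx4 : x (2, e, i) <;>
        simp [hx1, hx2, hx3, hx4] at h1 ⊢ <;> omega
  have chain : ∀ e, e ≤ EE I → ∀ j < mm I, x (0, e, j) = x (0, 0, j) := by
    intro e
    induction e with
    | zero => intro _ j _; rfl
    | succ e ih =>
      intro he j hj
      have h1 := (block (e + 1) (by omega) he (sg (mm I) (e + 1) j) (sg_lt hj)).1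
      rw [sg_sg hj, Nat.add_sub_cancel] at h1
      rw [h1]
      exact ih (by omega) j hj
  have hfin : ∀ e < EE I, ∑ j ∈ range (mm I), (if x (0, 0, j) then cnt I e j else 0) = 1 := by
    intro e he
    have h1 := hx ((e + 1) * (mm I + 1) + mm I) (by
      rw [hN]; have := slot_lt (I := I) (e := e + 1) he le_rfl; omega)
    rw [beta_slot he le_rfl, cb0_slot le_rfl, if_neg (lt_irrefl _)] at h1
    unfold Sys.Y at h1
    rw [pushm, popm (by omega) he hm, cc2] at h1
    have h2 : x (2, e + 1, mm I - 1) = true := by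
      cases hx1 : x (2, e + 1, mm I - 1)
      · simp [hx1] at h1
      · rfl
    have h3 := (block (e + 1) (by omega) he (mm I - 1) (by omega)).2
    have e1 : mm I - 1 + 1 = mm I := by omega
    rw [h2, e1, Nat.add_sub_cancel] at h3
    rw [← sum_sg (mm I) (e + 1) (fun j => if x (0, 0, j) = true then cnt I e j else 0)]
    refine Eq.trans (sum_congr rfl fun k hk => ?_) h3.symm
    rw [mem_range] at hk
    rw [chain e (by omega) _ (sg_lt hk)]
  refine ⟨(List.range (mm I)).map fun j => x (0, 0, j), by simp [mm], ?_⟩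
  intro e he
  rw [sel_count _ (by simp)]
  rw [← hfin e he]
  refine sum_congr rfl fun j hj => ?_
  rw [mem_range] at hj
  rw [List.getD_eq_getElem _ _ (by simpa using hj)]
  simp

/-- from exact covers to solutions of the system -/
theorem solvable_of_ec (hm : 0 < mm I) (h : EC I) : (sys I).Solvable := by
  obtain ⟨b, hb, hc⟩ := h
  set y : ℕ → Bool := fun j => b.getD j false with hy
  set P : ℕ → ℕ → ℕ := fun e i => ∑ k ∈ range i,
    if y (sg (mm I) e k) then cnt I (e - 1) (sg (mm I) e k) else 0 with hP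
  have hPm : ∀ e, 1 ≤ e → e ≤ EE I → P e (mm I) = 1 := by
    intro e he heE
    have h1 := hc (e - 1) (by show e - 1 < EE I; omega)
    rw [sel_count b hb] at h1
    exact (sum_sg (mm I) e (fun j => if y j = true then cnt I (e - 1) j else 0)).trans h1
  have hPle : ∀ e, 1 ≤ e → e ≤ EE I → ∀ i ≤ mm I, P e i ≤ 1 := by
    intro e he heE i hi
    rw [← hPm e he heE]
    exact sum_le_sum_of_subset (range_subset_range.2 hi)
  set x : Lb → Bool := fun l => if l.1 = 0 then y l.2.2 else if l.1 = 1 then !y l.2.2 else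
    decide (P l.2.1 (l.2.2 + 1) = 1) with hx
  have x0 : ∀ e j, x (0, e, j) = y j := fun _ _ => rfl
  have x1 : ∀ e j, x (1, e, j) = !y j := fun _ _ => rfl
  have x2 : ∀ e i, 1 ≤ e → e ≤ EE I → i < mm I → (if x (2, e, i) = true then 1 else 0) = P e (i + 1) ∧
      (if x (2, e, i) = true then 0 else 1) = 1 - P e (i + 1) := by
    intro e i he heE hi
    have h1 : x (2, e, i) = decide (P e (i + 1) = 1) := rfl
    have h2 := hPle e he heE (i + 1) hi
    rw [h1]
    by_cases h3 : P e (i + 1) = 1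
    · rw [h3]
      simp
    · have h4 : P e (i + 1) = 0 := by omega
      rw [h4]
      simp
  have hslot : ∀ t < FF I, (sys I).Y x t = (sys I).β t := by
    intro t ht
    obtain ⟨e, i, he, hi, rfl⟩ := exists_slot ht
    rw [beta_slot he hi, cb0_slot hi]
    unfold Sys.Y
    rcases Nat.lt_or_ge i (mm I) with hi' | hi'
    · rw [if_pos hi']
      rcases Nat.eq_zero_or_pos e with rfl | he0
      · rw [if_pos rfl, push0 hi', pop0 hi, cc0, cc1, x0, x1]
        cases y i <;> simp
      · rw [if_neg (by omega), push1 he0 he hi', cc0, cc2, x0, (x2 e i he0 he hi').1]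
        have h2 := w_succ (I := I) (e - 1) (sg (mm I) e i)
        have e1 : e - 1 + 1 = e := by omega
        rw [e1] at h2
        have h3 : P e (i + 1) = P e i + if y (sg (mm I) e i) then cnt I (e - 1) (sg (mm I) e i)
          else 0 := by
          rw [hP]
          exact sum_range_succ _ _
        rw [h3]
        rcases Nat.eq_zero_or_pos i with rfl | hi0
        · rw [pop1 he0 he hm, cc0, x0, if_pos rfl]
          have h4 : P e 0 = 0 := by rw [hP]; simp
          rw [h4]
          cases y (sg (mm I) e 0) <;> simp; omega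
        · rw [pop2 he0 he hi0 hi', cc0, x0, cc2, if_neg (by omega : ¬ i = 0),
            (x2 e (i - 1) he0 he (by omega)).2]
          have h5 : i - 1 + 1 = i := by omega
          rw [h5]
          have h6 := hPle e he0 he i hi
          cases y (sg (mm I) e i) <;> simp <;> omega
    · have hi2 : i = mm I := by omega
      subst hi2
      rw [if_neg (lt_irrefl _), pushm]
      rcases Nat.eq_zero_or_pos e with rfl | he0
      · rw [pop0 le_rfl]
      · rw [popm he0 he hm, cc2, (x2 e (mm I - 1) he0 he (by omega)).2]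
        have h5 : mm I - 1 + 1 = mm I := by omega
        rw [h5, hPm e he0 he]
  refine ⟨x, fun t ht => ?_⟩
  have ht' : t < FF I + 1 := ht
  rcases Nat.lt_or_ge t (FF I) with h1 | h1
  · exact hslot t h1
  · have h2 : t = FF I := by omega
    subst h2
    have h3 := Sys.sum_Y (sys_ok (I := I)) x
    have h4 := (sys_ok (I := I)).sum_eq
    have hN : (sys I).N = FF I + 1 := rfl
    rw [hN, sum_range_succ] at h3 h4
    rw [sum_congr rfl fun u hu => hslot u (mem_range.1 hu)] at h3
    exact Nat.add_left_cancel (h3.trans h4.symm)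

/-- **The scheduling problem has a solution if and only if there is an exact cover.** -/
theorem sched_iff_ec (hm : 0 < mm I) : (sys I).Sched ↔ EC I := by
  constructor
  · rintro ⟨l, h1, h2, h3⟩
    exact ec_of_solvable hm (Sys.solvable_of_isL sys_ok ⟨h1, h2, h3⟩)
  · intro h
    obtain ⟨l, hl⟩ := Sys.isL_of_solvable sys_ok (solvable_of_ec hm h)
    exact ⟨l, hl.nodup, hl.mem, hl.le⟩

end Pool.Agent.Seat68.VL
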