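import Pool.Agent.Seat68.VL.Conc

/-!
# The system of an exact cover instance satisfies the conditions
-/

set_option autoImplicit false

namespace Pool.Agent.Seat68.VL

open Finset

variable {I : In}

theorem mem_J {l : Lb} : l ∈ (sys I).J ↔ l ∈ clab I := List.mem_toFinset

theorem FF_ge {e : ℕ} (he : e ≤ EE I) : e * (mm I + 1) + (mm I + 1) ≤ FF I := by
  unfold FF
  calc e * (mm I + 1) + (mm I + 1) = (e + 1) * (mm I + 1) := by ring
    _ ≤ _ := Nat.mul_le_mul_right _ (by omega)

theorem st_lt_en {l : Lb} (hl : l ∈ clab I) : cst I l < cen I l := by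
  rw [mem_clab] at hl
  unfold cst cen
  rcases hl with ⟨h1, h2, h3⟩ | ⟨h1, h2, h3⟩ | ⟨h1, h2, h3, h4⟩
  · rw [if_pos h1, if_pos h1]
    have h4 := FF_ge h2
    have h5 := sg_lt (e := l.2.1) h3
    split_ifs with h6
    · omega
    · have e1 : (l.2.1 + 1) * (mm I + 1) = l.2.1 * (mm I + 1) + (mm I + 1) := by ring
      omega
  · rw [if_neg (by omega), if_pos h1, if_neg (by omega), if_pos h1]
    have := FF_ge (I := I) (e := 0) (Nat.zero_le _)
    omega
  · rw [if_neg (by omega), if_neg (by omega), if_neg (by omega), if_neg (by omega)]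
    omega

theorem en_le {l : Lb} (hl : l ∈ clab I) : cen I l ≤ FF I := by
  rw [mem_clab] at hl
  unfold cen
  rcases hl with ⟨h1, h2, h3⟩ | ⟨h1, h2, h3⟩ | ⟨h1, h2, h3, h4⟩
  · rw [if_pos h1]
    split_ifs with h6
    · exact le_rfl
    · have h4 := FF_ge (I := I) (e := l.2.1 + 1) (by omega)
      have h5 := sg_lt (e := l.2.1 + 1) h3
      omega
  · rw [if_neg (by omega), if_pos h1]
  · rw [if_neg (by omega), if_neg (by omega)]
    have := FF_ge h3
    omega

theorem c_pos (l : Lb) : 0 < cc I l := by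
  unfold cc
  have h1 := w_ge (I := I) l.2.1 l.2.2
  have h2 := w_ge (I := I) 0 l.2.2
  split_ifs <;> omega

theorem uniq_lab {l l' : Lb} (hl : l ∈ clab I) (hl' : l' ∈ clab I) (h1 : cside l = cside l')
    (h2 : cst I l = cst I l') : l = l' := by
  rw [mem_clab] at hl hl'
  obtain ⟨a, e, j⟩ := l
  obtain ⟨a', e', j'⟩ := l'
  unfold cside at h1
  unfold cst at h2
  simp only at hl hl' h1 h2
  have hs := fun {m e i : ℕ} (h : i < m) => sg_sg (m := m) (e := e) h
  rcases hl with ⟨rfl, h3, h4⟩ | ⟨rfl, rfl, h4⟩ | ⟨rfl, h3, h3', h4⟩ <;>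
    rcases hl' with ⟨rfl, h5, h6⟩ | ⟨rfl, rfl, h6⟩ | ⟨rfl, h5, h5', h6⟩ <;>
    simp only [if_true, if_false, OfNat.ofNat_ne_zero, OfNat.ofNat_ne_one,
      one_ne_zero] at h1 h2
  · obtain ⟨rfl, h7⟩ := slot_inj (sg_lt h4).le (sg_lt h6).le h2
    have h8 := hs (e := e) h4
    rw [h7, hs h6] at h8
    rw [h8]
  · exfalso
    have h7 := slot_inj (e' := 0) (sg_lt h4).le h6.le (by rw [h2]; omega)
    rw [h7.1] at h1
    simp at h1
  · exfalso
    obtain ⟨rfl, h7⟩ := slot_inj (sg_lt h4).le h6.le h2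
    simp only [decide_eq_decide] at h1
    omega
  · exfalso
    have h7 := slot_inj (e' := 0) (sg_lt h6).le h4.le (by rw [← h2]; omega)
    rw [h7.1] at h1
    simp at h1
  · rw [h2]
  · exfalso
    have h7 := slot_inj (e' := 0) h6.le h4.le (by rw [← h2]; omega)
    omega
  · exfalso
    obtain ⟨rfl, h7⟩ := slot_inj h4.le (sg_lt h6).le h2
    simp only [decide_eq_decide] at h1
    omega
  · exfalso
    have h7 := slot_inj (e' := 0) h4.le h6.le (by rw [h2]; omega)
    omega
  · obtain ⟨rfl, rfl⟩ := slot_inj h4.le h6.le h2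
    rfl

/-- the rounds between the first and the last round of the job of a list -/
theorem between {e j t : ℕ} (hj : j < mm I) (he : e ≤ EE I)
    (h1 : e * (mm I + 1) + sg (mm I) e j < t) (h2 : t < cen I (0, e, j)) :
    ∃ e' i', e' ≤ EE I ∧ i' ≤ mm I ∧ t = e' * (mm I + 1) + i' ∧
      ((e' = e ∧ sg (mm I) e j < i') ∨ (e' = e + 1 ∧ i' < sg (mm I) (e + 1) j)) := by
  have h3 : t < FF I := lt_of_lt_of_le h2 (en_le (by rw [mem_clab]; exact Or.inl ⟨rfl, he, hj⟩))
  obtain ⟨e', i', h4, h5, rfl⟩ := exists_slot h3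
  refine ⟨e', i', h4, h5, rfl, ?_⟩
  have h6 := sg_lt (e := e) hj
  rcases Nat.lt_trichotomy e' e with h | h | h
  · exfalso
    have : e' * (mm I + 1) + (mm I + 1) ≤ e * (mm I + 1) := by
      calc e' * (mm I + 1) + (mm I + 1) = (e' + 1) * (mm I + 1) := by ring
        _ ≤ _ := Nat.mul_le_mul_right _ h
    omega
  · subst h
    exact Or.inl ⟨rfl, by omega⟩
  · right
    unfold cen at h2
    simp only [if_true] at h2
    have h7 := sg_lt (e := e + 1) hj
    have h8 : (e + 1) * (mm I + 1) ≤ e' * (mm I + 1) := Nat.mul_le_mul_right _ h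
    split_ifs at h2 with h9
    · omega
    · have h10 : e' = e + 1 := by
        by_contra hne
        have : (e + 1) * (mm I + 1) + (mm I + 1) ≤ e' * (mm I + 1) := by
          calc (e + 1) * (mm I + 1) + (mm I + 1) = (e + 1 + 1) * (mm I + 1) := by ring
            _ ≤ _ := Nat.mul_le_mul_right _ (by omega)
        omega
      subst h10
      exact ⟨rfl, by omega⟩

theorem r_true (t : ℕ) : (sys I).r true t = cR I t := rfl

theorem r_false (t : ℕ) : (sys I).r false t = cL I t := rfl

theorem lev_lab {l : Lb} (hl : l ∈ clab I) {t : ℕ} (h1 : cst I l < t) (h2 : t < cen I l) :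
    (sys I).r (cside l) (cst I l) < (sys I).r (cside l) t := by
  have hl' := hl
  rw [mem_clab] at hl
  obtain ⟨a, e, j⟩ := l
  simp only at hl
  rcases hl with ⟨rfl, h3, h4⟩ | ⟨rfl, rfl, h4⟩ | ⟨rfl, h3, h3', h4⟩
  · have hst : cst I (0, e, j) = e * (mm I + 1) + sg (mm I) e j := rfl
    rw [hst] at h1 ⊢
    obtain ⟨e', i', h5, h6, rfl, h7⟩ := between h4 h3 h1 h2
    have hsd : cside (0, e, j) = decide (e % 2 = 0) := rfl
    rw [hsd]
    have h8 := sg_lt (e := e) h4
    by_cases hp : e % 2 = 0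
    · rw [decide_eq_true hp, r_true, r_true, cR_slot h3 h8.le, cR_slot h5 h6, if_pos hp]
      unfold sg at h7 ⊢
      rw [if_pos hp] at h7 ⊢
      rw [if_neg (by omega : ¬ (e + 1) % 2 = 0)] at h7
      split_ifs <;> omega
    · rw [decide_eq_false hp, r_false, r_false, cL_slot h3 h8.le, cL_slot h5 h6]
      unfold sg at h7 ⊢
      rw [if_neg hp] at h7 ⊢
      rw [if_pos (by omega : (e + 1) % 2 = 0)] at h7
      split_ifs <;> omega
  · have hst : cst I (1, 0, j) = 0 * (mm I + 1) + j := by
      show j = _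
      omega
    have hen : cen I (1, 0, j) = FF I := rfl
    rw [hst] at h1 ⊢
    rw [hen] at h2
    have hsd : cside (1, 0, j) = false := rfl
    obtain ⟨e', i', h5, h6, rfl⟩ := exists_slot h2
    rw [hsd, r_false, r_false, cL_slot (Nat.zero_le _) h4.le, cL_slot h5 h6, if_pos rfl]
    split_ifs with h7 h8
    · subst h7
      omega
    · omega
    · omega
  · exfalso
    have hst : cst I (2, e, j) = e * (mm I + 1) + j := rfl
    have hen : cen I (2, e, j) = e * (mm I + 1) + j + 1 := rfl
    omega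

theorem r_FF (b : Bool) : (sys I).r b (FF I) = 0 := by
  cases b
  · rw [r_false]
    unfold cL
    rw [if_pos rfl]
  · rw [r_true]
    unfold cR
    rw [if_pos rfl]

theorem lev_en_lab {l : Lb} (hl : l ∈ clab I) :
    (sys I).r (cside l) (cen I l) ≤ (sys I).r (cside l) (cst I l) := by
  rw [mem_clab] at hl
  obtain ⟨a, e, j⟩ := l
  simp only at hl
  rcases hl with ⟨rfl, h3, h4⟩ | ⟨rfl, rfl, h4⟩ | ⟨rfl, h3, h3', h4⟩
  · have hst : cst I (0, e, j) = e * (mm I + 1) + sg (mm I) e j := rfl
    have hen : cen I (0, e, j) = if e = EE I then FF I else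
      (e + 1) * (mm I + 1) + sg (mm I) (e + 1) j := rfl
    by_cases hE : e = EE I
    · rw [hen, if_pos hE, r_FF]
      exact Nat.zero_le _
    · rw [hst, hen, if_neg hE]
      have hsd : cside (0, e, j) = decide (e % 2 = 0) := rfl
      rw [hsd]
      have h8 := sg_lt (e := e) h4
      have h9 := sg_lt (e := e + 1) h4
      have h10 : e + 1 ≤ EE I := by omega
      by_cases hp : e % 2 = 0
      · rw [decide_eq_true hp, r_true, r_true, cR_slot h3 h8.le, cR_slot h10 h9.le, if_pos hp]
        unfold sg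
        rw [if_pos hp, if_neg (by omega : ¬ (e + 1) % 2 = 0), if_neg (by omega : ¬ (e + 1) % 2 = 0)]
        omega
      · rw [decide_eq_false hp, r_false, r_false, cL_slot h3 h8.le, cL_slot h10 h9.le]
        unfold sg
        rw [if_neg hp, if_pos (by omega : (e + 1) % 2 = 0), if_neg (by omega : ¬ e + 1 = 0),
          if_pos (by omega : (e + 1) % 2 = 0), if_neg (by omega : ¬ e = 0), if_neg hp]
  · have hen : cen I (1, 0, j) = FF I := rfl
    rw [hen, r_FF]
    exact Nat.zero_le _
  · have hst : cst I (2, e, j) = e * (mm I + 1) + j := rfl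
    have hen : cen I (2, e, j) = e * (mm I + 1) + (j + 1) := rfl
    rw [hst, hen]
    have hsd : cside (2, e, j) = decide (e % 2 = 1) := rfl
    rw [hsd]
    by_cases hp : e % 2 = 1
    · rw [decide_eq_true hp, r_true, r_true, cR_slot h3' h4.le, cR_slot h3' h4, if_neg (by omega),
        if_neg (by omega)]
      omega
    · rw [decide_eq_false hp, r_false, r_false, cL_slot h3' h4.le, cL_slot h3' h4, if_neg (by omega),
        if_pos (by omega), if_neg (by omega), if_pos (by omega)]
      omega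

theorem r_le (b : Bool) (t : ℕ) : (sys I).r b t ≤ 2 * mm I := by
  have h1 := Nat.mod_lt t (show 0 < mm I + 1 by omega)
  cases b
  · rw [r_false]
    unfold cL
    split_ifs <;> omega
  · rw [r_true]
    unfold cR
    split_ifs <;> omega

/-- sums over blocks -/
theorem sum_blocks (f : ℕ → ℕ) (n : ℕ) : ∀ k, ∑ t ∈ range (k * n), f t =
    ∑ e ∈ range k, ∑ i ∈ range n, f (e * n + i) := by
  intro k
  induction k with
  | zero => simp
  | succ k ih =>
    rw [Nat.succ_mul, sum_range_add, ih, sum_range_succ]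

theorem sum_list_range (f : ℕ → ℕ) (n : ℕ) : ((List.range n).map f).sum = ∑ t ∈ range n, f t := rfl

theorem sum_sg (m e : ℕ) (f : ℕ → ℕ) : ∑ i ∈ range m, f (sg m e i) = ∑ i ∈ range m, f i := by
  refine sum_bij' (fun i _ => sg m e i) (fun i _ => sg m e i) ?_ ?_ ?_ ?_ ?_
  · intro i hi
    exact mem_range.2 (sg_lt (mem_range.1 hi))
  · intro i hi
    exact mem_range.2 (sg_lt (mem_range.1 hi))
  · intro i hi
    exact sg_sg (mem_range.1 hi)
  · intro i hi
    exact sg_sg (mem_range.1 hi)
  · intro i _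
    rfl

theorem sum_clab (f : Lb → ℕ) : ((clab I).map f).sum =
    ∑ e ∈ range (EE I + 1), ∑ j ∈ range (mm I), f (0, e, j) +
      (∑ j ∈ range (mm I), f (1, 0, j) + ∑ e ∈ range (EE I), ∑ i ∈ range (mm I), f (2, e + 1, i)) := by
  have h : ∀ (g : ℕ → ℕ → Lb) (n m : ℕ), (((List.range n).flatMap fun e =>
      (List.range m).map fun j => g e j).map f).sum = ∑ e ∈ range n, ∑ j ∈ range m, f (g e j) := by
    intro g n m
    induction n with
    | zero => simp
    | succ n ih =>
      rw [List.range_succ, List.flatMap_append, List.map_append, List.sum_append, ih, sum_range_succ]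
      simp only [List.flatMap_cons, List.flatMap_nil, List.append_nil, List.map_map]
      rfl
  unfold clab
  rw [List.map_append, List.sum_append, List.map_append, List.sum_append, h, h, List.map_map]
  rfl

theorem sum_cb0_le : ((List.range (FF I)).map (cb0 I)).sum ≤ ((clab I).map (cc I)).sum := by
  rw [sum_list_range, sum_clab]
  unfold FF
  rw [sum_blocks]
  have h1 : ∀ e, ∑ i ∈ range (mm I + 1), cb0 I (e * (mm I + 1) + i) =
      ∑ i ∈ range (mm I), (if e = 0 then w I 0 i else w I (e - 1) (sg (mm I) e i) +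
        (if i = 0 then 0 else 1)) := by
    intro e
    rw [sum_range_succ, cb0_slot le_rfl, if_neg (lt_irrefl _), add_zero]
    refine sum_congr rfl fun i hi => ?_
    rw [mem_range] at hi
    rw [cb0_slot hi.le, if_pos hi]
  rw [sum_congr rfl fun e _ => h1 e, sum_range_succ']
  simp only [if_true, Nat.add_sub_cancel]
  have h2 : ∀ e ∈ range (EE I), ∑ i ∈ range (mm I), (if e + 1 = 0 then w I 0 i else
      w I e (sg (mm I) (e + 1) i) + (if i = 0 then 0 else 1)) ≤
      ∑ j ∈ range (mm I), w I e j + ∑ i ∈ range (mm I), 1 := by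
    intro e _
    rw [← sum_sg (mm I) (e + 1) (fun j => w I e j), ← sum_add_distrib]
    refine sum_le_sum fun i _ => ?_
    rw [if_neg (Nat.succ_ne_zero e)]
    split_ifs <;> omega
  have h3 := sum_le_sum h2
  rw [sum_add_distrib] at h3
  have e0 : ∀ e j, cc I (0, e, j) = w I e j := fun _ _ => rfl
  have e1 : ∀ j, cc I (1, 0, j) = w I 0 j := fun _ => rfl
  have e2 : ∀ e i, cc I (2, e, i) = 1 := fun _ _ => rfl
  simp only [e0, e1, e2]
  rw [sum_range_succ (fun e => ∑ j ∈ range (mm I), w I e j)]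
  omega

theorem sum_cb : ∑ t ∈ range (FF I + 1), cb I t = ((clab I).map (cc I)).sum := by
  rw [sum_range_succ]
  have h1 : ∑ t ∈ range (FF I), cb I t = ((List.range (FF I)).map (cb0 I)).sum := by
    rw [sum_list_range]
    refine sum_congr rfl fun t ht => ?_
    rw [mem_range] at ht
    unfold cb
    rw [if_neg (by omega)]
  have h2 : cb I (FF I) = ((clab I).map (cc I)).sum - ((List.range (FF I)).map (cb0 I)).sum := by
    unfold cb
    rw [if_pos rfl]
  rw [h1, h2]
  have := sum_cb0_le (I := I)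
  omega

theorem sum_psi_cb : ∑ t ∈ range (FF I + 1), (sys I).psi t * cb I t ≤ 2 * (FF I + 1) * aa I := by
  have h1 : ∀ t ∈ range (FF I + 1), (sys I).psi t * cb I t ≤ 2 * (FF I + 1) * cb I t := by
    intro t _
    refine Nat.mul_le_mul_right _ ?_
    show 2 * (FF I + 1 - t) ≤ _
    omega
  refine (sum_le_sum h1).trans ?_
  rw [← mul_sum, sum_cb]
  exact Nat.mul_le_mul_left _ sum_cc_le

theorem q_le (b : Bool) {t : ℕ} (ht : t ≤ FF I) :
    (sys I).q b t ≤ 2 * mm I * cU I + (FF I + 1) * cD I := by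
  show (2 * mm I - (sys I).r b t) * cU I + t * cD I ≤ _
  exact Nat.add_le_add (Nat.mul_le_mul_right _ (Nat.sub_le _ _)) (Nat.mul_le_mul_right _ (by omega))

theorem sys_ok : (sys I).Ok where
  st_lt l hl := st_lt_en (mem_J.1 hl)
  en_lt l hl := Nat.lt_succ_of_le (en_le (mem_J.1 hl))
  cpos l _ := c_pos l
  uniq l hl l' hl' h1 h2 := uniq_lab (mem_J.1 hl) (mem_J.1 hl') h1 h2
  lev l hl t h1 h2 := lev_lab (mem_J.1 hl) h1 h2
  lev_en l hl := lev_en_lab (mem_J.1 hl)
  le_top b t _ := r_le b t
  sum_eq := by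
    rw [sum_J]
    exact sum_cb
  hD l hl := by
    have hl' := mem_J.1 hl
    have h1 := en_le hl'
    have h2 : cc I l ≤ ((clab I).map (cc I)).sum :=
      List.single_le_sum (fun _ _ => Nat.zero_le _) _ (List.mem_map_of_mem hl')
    have h3 := sum_cc_le (I := I)
    show cc I l * (cen I l - cst I l) ≤ (FF I + 1) * aa I
    rw [Nat.mul_comm]
    exact Nat.mul_le_mul (by omega) (by omega)
  hU := by
    have h1 := sum_psi_cb (I := I)
    show ∑ t ∈ range (FF I + 1), (sys I).psi t * cb I t + (FF I + 1) * cD I + 1 ≤ cU I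
    unfold cU
    omega
  hM := by
    have h1 := sum_psi_cb (I := I)
    show ∑ t ∈ range (FF I + 1), (2 * (sys I).q true t + 2 * (sys I).q false t +
      (sys I).psi t * cb I t) < cM I
    rw [sum_add_distrib]
    have h2 : ∑ t ∈ range (FF I + 1), (2 * (sys I).q true t + 2 * (sys I).q false t) ≤
        ∑ t ∈ range (FF I + 1), 4 * (2 * mm I * cU I + (FF I + 1) * cD I) := by
      refine sum_le_sum fun t ht => ?_
      rw [mem_range] at ht
      have a1 := q_le (I := I) true (t := t) (by omega)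
      have a2 := q_le (I := I) false (t := t) (by omega)
      omega
    rw [sum_const, card_range, smul_eq_mul] at h2
    unfold cM
    have e : (FF I + 1) * (4 * (2 * mm I * cU I + (FF I + 1) * cD I)) =
      4 * (FF I + 1) * (2 * mm I * cU I + (FF I + 1) * cD I) := by ring
    omega

end Pool.Agent.Seat68.VL
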