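import Pool.Agent.Seat68.VL.Basic
import Pool.Agent.N582.VLDefs

/-!
# Jobs on a line as jobs at the vertices of a path
-/

set_option autoImplicit false

namespace Pool.Agent.Seat68.VL

open Finset Pool.Agent.NPC Pool.Agent.N582.VL

/-- telescoping -/
theorem tele (f : ℕ → ℕ) (u v : ℕ) : ∀ m, (∀ i < m, f i ≤ f (i + 1)) →
    ∑ i ∈ range m, (if u ≤ i ∧ i + 1 ≤ v then f (i + 1) - f i else 0) =
      f (min m v) - f (min m u) := by
  intro m
  induction m with
  | zero => intro _; simp
  | succ m ih =>
    intro hf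
    have hmono : ∀ i j, i ≤ j → j ≤ m + 1 → f i ≤ f j := by
      intro i j hij
      induction j, hij using Nat.le_induction with
      | base => intro _; exact le_rfl
      | succ j hij ih => intro hj; exact (ih (by omega)).trans (hf j (by omega))
    rw [sum_range_succ, ih (fun i hi => hf i (by omega))]
    by_cases h1 : u ≤ m
    · by_cases h2 : m + 1 ≤ v
      · rw [if_pos ⟨h1, h2⟩, min_eq_left (by omega), min_eq_right h1, min_eq_left h2,
          min_eq_right (by omega)]
        have h3 := hmono u m h1 (by omega)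
        have h4 := hmono m (m + 1) (by omega) le_rfl
        omega
      · rw [if_neg (fun h => h2 h.2), min_eq_right (by omega : v ≤ m), min_eq_right h1,
          min_eq_right (by omega : v ≤ m + 1), min_eq_right (by omega : u ≤ m + 1), add_zero]
    · rw [if_neg (fun h => h1 h.1), min_eq_left (by omega : m ≤ u),
        min_eq_left (by omega : m + 1 ≤ u), add_zero]
      have h3 := hmono (min m v) m (min_le_left _ _) (by omega)
      have h4 := hmono (min (m + 1) v) (m + 1) (min_le_left _ _) le_rfl
      omega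

/-- the coordinate of a job, the start point having the coordinate `Z` -/
def zc (Z : ℕ) (v : Jb) : ℕ := Z + v.1 - v.2.1

/-- the default job -/
def dj : Jb := (0, 0, 0, 0)

/-- the instance of the scheduling problem on a path for a list of jobs sorted by coordinates -/
def pinst (Z : ℕ) (sl : List Jb) (k0 K : ℕ) : Inst where
  n := sl.length - 1
  right i := zc Z (sl.getD (i + 1) dj) - zc Z (sl.getD i dj)
  left i := zc Z (sl.getD (i + 1) dj) - zc Z (sl.getD i dj)
  start := ⟨min k0 (sl.length - 1), by omega⟩
  release v := (sl.getD v dj).2.2.1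
  handling v := max 1 (sl.getD v dj).2.2.2
  handling_pos v := by omega
  bound := K

/-- conditions on the list of the jobs -/
structure POk (Z : ℕ) (sl : List Jb) (k0 : ℕ) : Prop where
  sorted : sl.Pairwise (fun a b => zc Z a ≤ zc Z b)
  lt : k0 < sl.length
  home : (sl.getD k0 dj).1 = 0 ∧ (sl.getD k0 dj).2.1 = 0
  pos : ∀ v ∈ sl, 0 < v.2.2.2
  side : ∀ v ∈ sl, (v.1 = 0 ∨ v.2.1 = 0) ∧ v.2.1 ≤ Z

theorem getD_mem {sl : List Jb} {i : ℕ} (hi : i < sl.length) : sl.getD i dj ∈ sl := by
  rw [List.getD_eq_getElem _ _ hi]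
  exact List.getElem_mem hi

theorem travel_pinst {Z : ℕ} {sl : List Jb} {k0 K : ℕ} (h : POk Z sl k0)
    (u v : Fin ((pinst Z sl k0 K).n + 1)) : (pinst Z sl k0 K).travel u v =
      ds (sl.getD u dj).1 (sl.getD v dj).1 + ds (sl.getD u dj).2.1 (sl.getD v dj).2.1 := by
  have hn : (pinst Z sl k0 K).n = sl.length - 1 := rfl
  have hl := h.lt
  have hf : ∀ i < sl.length - 1, zc Z (sl.getD i dj) ≤ zc Z (sl.getD (i + 1) dj) := by
    intro i hi
    rw [List.getD_eq_getElem _ _ (by omega), List.getD_eq_getElem _ _ (by omega)]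
    exact List.pairwise_iff_getElem.1 h.sorted i (i + 1) (by omega) (by omega) (by omega)
  have key : ∀ u v : Fin (sl.length - 1 + 1), ∑ i : Fin (sl.length - 1)
      with u ≤ i.castSucc ∧ i.succ ≤ v, (zc Z (sl.getD (i + 1) dj) - zc Z (sl.getD i dj)) =
        zc Z (sl.getD v dj) - zc Z (sl.getD u dj) := by
    intro u v
    rw [sum_filter]
    have h1 := tele (fun i => zc Z (sl.getD i dj)) u v (sl.length - 1) hf
    rw [min_eq_right (by omega), min_eq_right (by omega)] at h1
    rw [← h1, ← Fin.sum_univ_eq_sum_range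
      (fun i => if (u : ℕ) ≤ i ∧ i + 1 ≤ (v : ℕ) then
        zc Z (sl.getD (i + 1) dj) - zc Z (sl.getD i dj) else 0)]
    refine sum_congr rfl fun i _ => if_congr ?_ rfl rfl
    rw [Fin.le_def, Fin.le_def]
    simp
  have h1 : (pinst Z sl k0 K).travel u v = (zc Z (sl.getD v dj) - zc Z (sl.getD u dj)) +
      (zc Z (sl.getD u dj) - zc Z (sl.getD v dj)) := by
    unfold Inst.travel
    exact congrArg₂ (· + ·) (key u v) (key v u)
  rw [h1]
  have h2 := h.side _ (getD_mem (sl := sl) (i := u) (by have := u.2; omega))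
  have h3 := h.side _ (getD_mem (sl := sl) (i := v) (by have := v.2; omega))
  unfold zc ds
  omega

theorem finish_pinst {Z : ℕ} {sl : List Jb} {k0 K : ℕ} (h : POk Z sl k0)
    (l : List (Fin ((pinst Z sl k0 K).n + 1))) : ∀ (u : Fin ((pinst Z sl k0 K).n + 1)) (t : ℕ),
      (pinst Z sl k0 K).finish u t l =
      fin (fun v : Fin ((pinst Z sl k0 K).n + 1) => sl.getD v dj) (sl.getD u dj).1
        (sl.getD u dj).2.1 t l := by
  have hn : (pinst Z sl k0 K).n = sl.length - 1 := rfl
  have hl := h.lt
  have hst : ((pinst Z sl k0 K).start : ℕ) = k0 := by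
    show min k0 (sl.length - 1) = k0
    omega
  induction l with
  | nil =>
    intro u t
    simp only [Inst.finish, fin]
    rw [travel_pinst h, hst, h.home.1, h.home.2]
    unfold ds
    omega
  | cons v l ih =>
    intro u t
    simp only [Inst.finish, fin]
    rw [ih, travel_pinst h]
    have h1 := h.pos _ (getD_mem (sl := sl) (i := v) (by have := v.2; omega))
    have h2 : (pinst Z sl k0 K).handling v = (sl.getD v dj).2.2.2 := by
      show max 1 (sl.getD v dj).2.2.2 = _
      omega
    rw [h2]
    rfl

theorem fin_map {α β : Type} (d : β → Jb) (f : α → β) (l : List α) : ∀ x y t,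
    fin d x y t (l.map f) = fin (fun a => d (f a)) x y t l := by
  induction l with
  | nil => intro x y t; rfl
  | cons v l ih => intro x y t; simp only [List.map_cons, fin]; exact ih _ _ _

/-- Scheduling on the path is the same as ordering the names. -/
theorem schedulable_pinst {α : Type} {Z : ℕ} {d : α → Jb} {al : List α} {k0 K : ℕ}
    (hnd : al.Nodup) (h : POk Z (al.map d) k0) :
    Schedulable (pinst Z (al.map d) k0 K) ↔
      ∃ l : List α, l.Nodup ∧ (∀ v, v ∈ l ↔ v ∈ al) ∧ fin d 0 0 0 l ≤ K := by
  have hlen : (pinst Z (al.map d) k0 K).n + 1 = al.length := by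
    have := h.lt
    rw [List.length_map] at this
    show (al.map d).length - 1 + 1 = _
    rw [List.length_map]
    omega
  have hst : ((pinst Z (al.map d) k0 K).start : ℕ) = k0 := by
    have := h.lt
    show min k0 ((al.map d).length - 1) = k0
    omega
  set g : Fin ((pinst Z (al.map d) k0 K).n + 1) → α := fun i => al.get (Fin.cast hlen i) with hg
  have hginj : Function.Injective g := by
    intro i j hij
    have := (List.nodup_iff_injective_get.1 hnd) hij
    exact Fin.cast_injective _ this
  have hgr : ∀ v ∈ al, ∃ i, g i = v := by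
    intro v hv
    obtain ⟨i, hi⟩ := List.get_of_mem hv
    exact ⟨Fin.cast hlen.symm i, by rw [hg]; simpa using hi⟩
  have hgm : ∀ i, g i ∈ al := fun i => List.get_mem _ _
  have hd : (fun v : Fin ((pinst Z (al.map d) k0 K).n + 1) => (al.map d).getD v dj) =
      fun v => d (g v) := by
    funext v
    have : (v : ℕ) < al.length := by have := v.2; omega
    rw [List.getD_eq_getElem _ _ (by rwa [List.length_map]), List.getElem_map]
    rfl
  have hfin : ∀ π : List (Fin ((pinst Z (al.map d) k0 K).n + 1)),
      (pinst Z (al.map d) k0 K).finish (pinst Z (al.map d) k0 K).start 0 π =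
        fin d 0 0 0 (π.map g) := by
    intro π
    rw [finish_pinst h, hst, h.home.1, h.home.2, fin_map, hd]
  constructor
  · rintro ⟨π, h1, h2, h3⟩
    refine ⟨π.map g, h1.map hginj, ?_, ?_⟩
    · intro v
      rw [List.mem_map]
      constructor
      · rintro ⟨i, -, rfl⟩
        exact hgm i
      · intro hv
        obtain ⟨i, hi⟩ := hgr v hv
        exact ⟨i, h2 i, hi⟩
    · rw [← hfin]
      exact h3
  · rintro ⟨l, h1, h2, h3⟩
    have h4 : l ∈ Set.range (List.map g) := by
      rw [Set.range_list_map]
      intro v hv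
      obtain ⟨i, hi⟩ := hgr v ((h2 v).1 hv)
      exact ⟨i, hi⟩
    obtain ⟨π, rfl⟩ := h4
    refine ⟨π, List.Nodup.of_map _ h1, ?_, ?_⟩
    · intro i
      have h5 := (h2 (g i)).2 (hgm i)
      rw [List.mem_map] at h5
      obtain ⟨j, hj, hji⟩ := h5
      rwa [← hginj hji]
    · rw [hfin]
      exact h3

/-! ### Sorting by coordinates -/

/-- sorting by a function with values below `W` -/
def srt {κ : Type} (z : κ → ℕ) (W : ℕ) (l : List κ) : List κ :=
  (List.range W).flatMap fun p => l.filter fun v => decide (z v = p)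

theorem mem_srt {κ : Type} {z : κ → ℕ} {W : ℕ} {l : List κ} {v : κ} :
    v ∈ srt z W l ↔ v ∈ l ∧ z v < W := by
  unfold srt
  simp only [List.mem_flatMap, List.mem_range, List.mem_filter, decide_eq_true_eq]
  constructor
  · rintro ⟨p, hp, hv, rfl⟩
    exact ⟨hv, hp⟩
  · rintro ⟨hv, h⟩
    exact ⟨_, h, hv, rfl⟩

theorem nodup_srt {κ : Type} {z : κ → ℕ} {W : ℕ} {l : List κ} (h : l.Nodup) :
    (srt z W l).Nodup := by
  unfold srt
  rw [List.nodup_flatMap]
  refine ⟨fun p _ => h.filter _, ?_⟩
  refine List.Pairwise.imp_of_mem ?_ List.nodup_range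
  intro a b _ _ hab v ha hb
  rw [List.mem_filter, decide_eq_true_eq] at ha hb
  exact hab (ha.2.symm.trans hb.2)

theorem sorted_srt {κ : Type} {z : κ → ℕ} {W : ℕ} {l : List κ} :
    (srt z W l).Pairwise (fun a b => z a ≤ z b) := by
  unfold srt
  rw [List.pairwise_flatMap]
  constructor
  · intro p _
    rw [List.pairwise_iff_getElem]
    intro i j hi hj _
    have ha := List.getElem_mem hi
    have hb := List.getElem_mem hj
    rw [List.mem_filter, decide_eq_true_eq] at ha hb
    rw [ha.2, hb.2]
  · refine List.Pairwise.imp_of_mem ?_ List.pairwise_lt_range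
    intro a b _ _ hab v hv w hw
    rw [List.mem_filter, decide_eq_true_eq] at hv hw
    omega

theorem srt_map {κ κ' : Type} {z : κ' → ℕ} {W : ℕ} {l : List κ} (d : κ → κ') :
    srt z W (l.map d) = (srt (fun v => z (d v)) W l).map d := by
  unfold srt
  rw [List.map_flatMap]
  congr 1
  funext p
  rw [List.filter_map]
  rfl

theorem srt_add {κ : Type} {z : κ → ℕ} (a b : ℕ) {l : List κ} :
    srt z (a + b) l = srt z a l ++ (List.range b).flatMap
      (fun p => l.filter fun v => decide (z v = a + p)) := by
  unfold srt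
  rw [List.range_add, List.flatMap_append, List.flatMap_map]

end Pool.Agent.Seat68.VL
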