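import Pool.Agent.Seat68.VL.Red
import Pool.Agent.H671R2.PolyAuto

/-!
# The reduction is computable in polynomial time
-/

set_option autoImplicit false

namespace Pool.Agent.Seat68.VL

open Pool.Agent.NPC Pool.Agent.NPC.SSP648 Pool.Agent.N582.VL

variable {α : Type} [TEnc α] {I : α → In} {e j t m i : α → ℕ} {l : α → Lb}

theorem u_mm (hI : NPC.Poly I) : UPoly (fun a => mm (I a)) := UPoly.length (NPC.Poly.fst hI)

theorem u_EE (hI : NPC.Poly I) : UPoly (fun a => EE (I a)) := UPoly.length (NPC.Poly.snd hI)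

theorem u_FF (hI : NPC.Poly I) : UPoly (fun a => FF (I a)) :=
  ((u_EE hI).add (UPoly.const 1)).mul ((u_mm hI).add (UPoly.const 1))

theorem u_fl (hI : NPC.Poly I) : UPoly (fun a => (I a).1.flatten.length) :=
  UPoly.length (NPC.Poly.flatten (NPC.Poly.fst hI))

theorem u_aa (hI : NPC.Poly I) : UPoly (fun a => aa (I a)) :=
  (((UPoly.const 2).mul (u_mm hI)).mul ((u_EE hI).add (UPoly.const 1))).mul
    ((UPoly.const 2).add (u_fl hI))

theorem u_cD (hI : NPC.Poly I) : UPoly (fun a => cD (I a)) :=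
  ((u_FF hI).add (UPoly.const 1)).mul (u_aa hI)

theorem u_cU (hI : NPC.Poly I) : UPoly (fun a => cU (I a)) :=
  ((((UPoly.const 2).mul ((u_FF hI).add (UPoly.const 1))).mul (u_aa hI)).add
    (((u_FF hI).add (UPoly.const 1)).mul (u_cD hI))).add (UPoly.const 1)

theorem u_ZZ (hI : NPC.Poly I) : UPoly (fun a => ZZ (I a)) :=
  ((((UPoly.const 2).mul (u_mm hI)).mul (u_cU hI)).add
    (((u_FF hI).add (UPoly.const 1)).mul (u_cD hI))).add (u_cD hI)

theorem u_cM (hI : NPC.Poly I) : UPoly (fun a => cM (I a)) :=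
  ((((UPoly.const 4).mul ((u_FF hI).add (UPoly.const 1))).mul
    ((((UPoly.const 2).mul (u_mm hI)).mul (u_cU hI)).add
      (((u_FF hI).add (UPoly.const 1)).mul (u_cD hI)))).add
    (((UPoly.const 2).mul ((u_FF hI).add (UPoly.const 1))).mul (u_aa hI))).add (UPoly.const 1)

@[fun_prop] theorem p_mm (hI : NPC.Poly I) : NPC.Poly (fun a => mm (I a)) := (u_mm hI).toPoly
@[fun_prop] theorem p_EE (hI : NPC.Poly I) : NPC.Poly (fun a => EE (I a)) := (u_EE hI).toPoly
@[fun_prop] theorem p_FF (hI : NPC.Poly I) : NPC.Poly (fun a => FF (I a)) := (u_FF hI).toPoly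
@[fun_prop] theorem p_cD (hI : NPC.Poly I) : NPC.Poly (fun a => cD (I a)) := (u_cD hI).toPoly
@[fun_prop] theorem p_cU (hI : NPC.Poly I) : NPC.Poly (fun a => cU (I a)) := (u_cU hI).toPoly
@[fun_prop] theorem p_cM (hI : NPC.Poly I) : NPC.Poly (fun a => cM (I a)) := (u_cM hI).toPoly
@[fun_prop] theorem p_ZZ (hI : NPC.Poly I) : NPC.Poly (fun a => ZZ (I a)) := (u_ZZ hI).toPoly

@[fun_prop] theorem p_w (hI : NPC.Poly I) (he : NPC.Poly e) (hj : NPC.Poly j) :
    NPC.Poly (fun a => w (I a) (e a) (j a)) := by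
  unfold w
  fun_prop

@[fun_prop] theorem p_sg (hm : NPC.Poly m) (he : NPC.Poly e) (hi : NPC.Poly i) :
    NPC.Poly (fun a => sg (m a) (e a) (i a)) := by
  unfold sg
  fun_prop

@[fun_prop] theorem p_cside (hl : NPC.Poly l) : NPC.Poly (fun a => cside (l a)) := by
  unfold cside
  fun_prop

@[fun_prop] theorem p_cst (hI : NPC.Poly I) (hl : NPC.Poly l) :
    NPC.Poly (fun a => cst (I a) (l a)) := by
  unfold cst
  fun_prop

@[fun_prop] theorem p_cen (hI : NPC.Poly I) (hl : NPC.Poly l) :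
    NPC.Poly (fun a => cen (I a) (l a)) := by
  unfold cen
  fun_prop

@[fun_prop] theorem p_cc (hI : NPC.Poly I) (hl : NPC.Poly l) :
    NPC.Poly (fun a => cc (I a) (l a)) := by
  unfold cc
  fun_prop

@[fun_prop] theorem p_rEE (hI : NPC.Poly I) : NPC.Poly (fun a => List.range (EE (I a))) :=
  (u_EE hI).range
@[fun_prop] theorem p_rEE1 (hI : NPC.Poly I) : NPC.Poly (fun a => List.range (EE (I a) + 1)) :=
  ((u_EE hI).add (UPoly.const 1)).range
@[fun_prop] theorem p_rmm (hI : NPC.Poly I) : NPC.Poly (fun a => List.range (mm (I a))) :=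
  (u_mm hI).range
@[fun_prop] theorem p_rFF (hI : NPC.Poly I) : NPC.Poly (fun a => List.range (FF (I a))) :=
  (u_FF hI).range
@[fun_prop] theorem p_rFF1 (hI : NPC.Poly I) : NPC.Poly (fun a => List.range (FF (I a) + 1)) :=
  ((u_FF hI).add (UPoly.const 1)).range
@[fun_prop] theorem p_rZZ (hI : NPC.Poly I) : NPC.Poly (fun a => List.range (ZZ (I a))) :=
  (u_ZZ hI).range
@[fun_prop] theorem p_rZZ1 (hI : NPC.Poly I) :
    NPC.Poly (fun a => List.range (ZZ (I a) + (ZZ (I a) + 1))) :=
  ((u_ZZ hI).add ((u_ZZ hI).add (UPoly.const 1))).range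

@[fun_prop] theorem p_clab (hI : NPC.Poly I) : NPC.Poly (fun a => clab (I a)) := by
  have hI1 : NPC.Poly (fun p : α × ℕ => I p.1) := hI.comp (NPC.Poly.fst NPC.Poly.id)
  unfold clab
  refine NPC.Poly.append (NPC.Poly.flatMap (F := fun a e => (List.range (mm (I a))).map
    fun j => ((0, e, j) : Lb)) (p_rEE1 hI) ?_) (NPC.Poly.append (NPC.Poly.map
      (F := fun _ j => ((1, 0, j) : Lb)) (p_rmm hI) (by fun_prop)) (NPC.Poly.flatMap
        (F := fun a e => (List.range (mm (I a))).map fun i => ((2, e + 1, i) : Lb)) (p_rEE hI) ?_))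
  · exact NPC.Poly.map (F := fun (p : α × ℕ) j => ((0, p.2, j) : Lb)) (p_rmm hI1) (by fun_prop)
  · exact NPC.Poly.map (F := fun (p : α × ℕ) j => ((2, p.2 + 1, j) : Lb)) (p_rmm hI1) (by fun_prop)

@[fun_prop] theorem p_cR (hI : NPC.Poly I) (ht : NPC.Poly t) :
    NPC.Poly (fun a => cR (I a) (t a)) := by
  unfold cR
  fun_prop

@[fun_prop] theorem p_cL (hI : NPC.Poly I) (ht : NPC.Poly t) :
    NPC.Poly (fun a => cL (I a) (t a)) := by
  unfold cL
  fun_prop

@[fun_prop] theorem p_cb0 (hI : NPC.Poly I) (ht : NPC.Poly t) :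
    NPC.Poly (fun a => cb0 (I a) (t a)) := by
  unfold cb0
  fun_prop

@[fun_prop] theorem p_cb (hI : NPC.Poly I) (ht : NPC.Poly t) :
    NPC.Poly (fun a => cb (I a) (t a)) := by
  unfold cb
  fun_prop

/-- the reach, on the right -/
def qR (I : In) (t : ℕ) : ℕ := (2 * mm I - cR I t) * cU I + t * cD I

/-- the reach, on the left -/
def qL (I : In) (t : ℕ) : ℕ := (2 * mm I - cL I t) * cU I + t * cD I

/-- the time of a round -/
def cstp (I : In) (t : ℕ) : ℕ := 2 * qR I t + 2 * qL I t + 2 * (FF I + 1 - t) * cb I t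

/-- the release times of the home jobs -/
def cT (I : In) (j : ℕ) : ℕ :=
  3 * j * cM I + (((List.range (FF I + 1)).filter fun t => decide (t < j)).map (cstp I)).sum

@[fun_prop] theorem p_qR (hI : NPC.Poly I) (ht : NPC.Poly t) :
    NPC.Poly (fun a => qR (I a) (t a)) := by
  unfold qR
  fun_prop

@[fun_prop] theorem p_qL (hI : NPC.Poly I) (ht : NPC.Poly t) :
    NPC.Poly (fun a => qL (I a) (t a)) := by
  unfold qL
  fun_prop

@[fun_prop] theorem p_cstp (hI : NPC.Poly I) (ht : NPC.Poly t) :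
    NPC.Poly (fun a => cstp (I a) (t a)) := by
  unfold cstp
  fun_prop

@[fun_prop] theorem p_cT (hI : NPC.Poly I) (ht : NPC.Poly t) :
    NPC.Poly (fun a => cT (I a) (t a)) := by
  have h1 : NPC.Poly (fun a => (List.range (FF (I a) + 1)).filter fun u => decide (u < t a)) :=
    NPC.Poly.filter (p_rFF1 hI) (by fun_prop)
  have h2 : NPC.Poly (fun a => ((List.range (FF (I a) + 1)).filter
      fun u => decide (u < t a)).map (cstp (I a))) :=
    NPC.Poly.map (F := fun a u => cstp (I a) u) h1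
      (p_cstp (hI.comp (NPC.Poly.fst NPC.Poly.id)) (NPC.Poly.snd NPC.Poly.id))
  have h3 := NPC.Poly.sum h2
  have h4 : NPC.Poly (fun a => 3 * t a * cM (I a)) := by fun_prop
  exact h4.add h3

theorem T_eq_cT (I : In) {j : ℕ} (hj : j ≤ FF I + 1) : (sys I).T j = cT I j := by
  unfold Sys.T cT
  congr 1
  have h : (List.range (FF I + 1)).filter (fun t => decide (t < j)) = List.range j := by
    obtain ⟨k, hk⟩ := Nat.exists_eq_add_of_le hj
    rw [hk, List.range_add, List.filter_append, List.filter_eq_self.2, List.filter_eq_nil_iff.2,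
      List.append_nil]
    · intro a ha
      rw [List.mem_map] at ha
      obtain ⟨b, -, rfl⟩ := ha
      simp
    · intro a ha
      rw [List.mem_range] at ha
      simpa using ha
  rw [h]
  rfl

/-- the data of the small jobs -/
def dS (I : In) (l : Lb) : Jb :=
  (if cside l = true then qR I (cst I l) + cc I l * (cen I l - cst I l) else 0,
    if cside l = true then 0 else qL I (cst I l) + cc I l * (cen I l - cst I l),
    (3 * cst I l + 1) * cM I, cc I l * (2 * (FF I + 1 - cen I l)))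

@[fun_prop] theorem p_dS (hI : NPC.Poly I) (hl : NPC.Poly l) :
    NPC.Poly (fun a => dS (I a) (l a)) := by
  unfold dS
  fun_prop

/-- the list of the jobs -/
def dl2 (I : In) : List Jb :=
  (List.range (FF I + 1)).map (fun t => (0, 0, cT I t, cM I)) ++
  ((List.range (FF I + 1)).map (fun t => (qR I t, 0, (3 * t + 1) * cM I, cM I)) ++
  ((List.range (FF I + 1)).map (fun t => (0, qL I t, (3 * t + 1) * cM I, cM I)) ++
    (clab I).map (dS I)))

theorem dls_eq (I : In) : dls I = dl2 I := by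
  unfold dls dl2 ixs
  rw [List.map_append, List.map_append, List.map_append, List.map_map, List.map_map, List.map_map,
    List.map_map]
  congr 1
  refine List.map_congr_left fun t ht => ?_
  rw [List.mem_range] at ht
  show (0, 0, (sys I).T t, (sys I).M) = _
  rw [T_eq_cT I ht.le]
  rfl

@[fun_prop] theorem p_dls (hI : NPC.Poly I) : NPC.Poly (fun a => dls (I a)) := by
  have hI1 : NPC.Poly (fun p : α × ℕ => I p.1) := hI.comp (NPC.Poly.fst NPC.Poly.id)
  have hI2 : NPC.Poly (fun p : α × Lb => I p.1) := hI.comp (NPC.Poly.fst NPC.Poly.id)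
  have hs : NPC.Poly (fun p : α × ℕ => p.2) := NPC.Poly.snd NPC.Poly.id
  simp only [dls_eq]
  unfold dl2
  refine NPC.Poly.append (NPC.Poly.map (F := fun a t => ((0, 0, cT (I a) t, cM (I a)) : Jb))
    (p_rFF1 hI) ?_) (NPC.Poly.append (NPC.Poly.map
      (F := fun a t => ((qR (I a) t, 0, (3 * t + 1) * cM (I a), cM (I a)) : Jb)) (p_rFF1 hI) ?_)
      (NPC.Poly.append (NPC.Poly.map
        (F := fun a t => ((0, qL (I a) t, (3 * t + 1) * cM (I a), cM (I a)) : Jb)) (p_rFF1 hI) ?_)
        (NPC.Poly.map (F := fun a l => dS (I a) l) (p_clab hI) ?_)))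
  · exact (NPC.Poly.const 0).pair ((NPC.Poly.const 0).pair ((p_cT hI1 hs).pair (p_cM hI1)))
  · exact (p_qR hI1 hs).pair ((NPC.Poly.const 0).pair
      ((((NPC.Poly.const 3).mul hs).add (NPC.Poly.const 1)).mul (p_cM hI1) |>.pair (p_cM hI1)))
  · exact (NPC.Poly.const 0).pair ((p_qL hI1 hs).pair
      ((((NPC.Poly.const 3).mul hs).add (NPC.Poly.const 1)).mul (p_cM hI1) |>.pair (p_cM hI1)))
  · exact p_dS hI2 (NPC.Poly.snd NPC.Poly.id)

@[fun_prop] theorem p_zc {Z : α → ℕ} {v : α → Jb} (hZ : NPC.Poly Z) (hv : NPC.Poly v) :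
    NPC.Poly (fun a => zc (Z a) (v a)) := by
  unfold zc
  fun_prop

theorem p_srt {W : α → ℕ} (hI : NPC.Poly I) (hW : NPC.Poly (fun a => List.range (W a))) :
    NPC.Poly (fun a => srt (zc (ZZ (I a))) (W a) (dls (I a))) := by
  have hI1 : NPC.Poly (fun p : α × ℕ => I p.1) := hI.comp (NPC.Poly.fst NPC.Poly.id)
  have hI2 : NPC.Poly (fun p : (α × ℕ) × Jb => I p.1.1) :=
    hI1.comp (NPC.Poly.fst NPC.Poly.id)
  unfold srt
  refine NPC.Poly.flatMap (F := fun a p => (dls (I a)).filter
    fun v => decide (zc (ZZ (I a)) v = p)) hW ?_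
  refine NPC.Poly.filter (p_dls hI1) ?_
  exact NPC.Poly.dec_eq (p_zc (p_ZZ hI2) (NPC.Poly.snd NPC.Poly.id))
    (NPC.Poly.snd (NPC.Poly.fst NPC.Poly.id))

@[fun_prop] theorem p_lo (hI : NPC.Poly I) : NPC.Poly (fun a => lo (I a)) := p_srt hI (p_rZZ hI)

@[fun_prop] theorem p_sds (hI : NPC.Poly I) : NPC.Poly (fun a => sds (I a)) :=
  p_srt hI (p_rZZ1 hI)

/-- the code of the instance -/
def rcode (I : In) : List (ℕ × ℕ) × List (ℕ × ℕ) × ℕ × ℕ :=
  (((sds I).zip (sds I).tail).map (fun p => (zc (ZZ I) p.2 - zc (ZZ I) p.1,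
      zc (ZZ I) p.2 - zc (ZZ I) p.1)),
    (sds I).map (fun v => (v.2.2.1, max 1 v.2.2.2)), min (lo I).length ((sds I).length - 1),
    cT I (FF I + 1))

theorem rcode_eq (I : In) : (rinst I).code = rcode I := by
  have hne : 0 < (sds I).length := by
    rw [length_sds, length_ixs]
    omega
  unfold rcode Inst.code
  refine Prod.ext ?_ (Prod.ext ?_ (Prod.ext rfl (T_eq_cT I le_rfl)))
  · apply List.ext_getElem
    · simp [rinst, pinst]
    · intro i h1 h2
      simp only [List.getElem_ofFn, List.getElem_map, List.getElem_zip, List.getElem_tail]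
      have h3 : i + 1 < (sds I).length := by
        rw [List.length_ofFn] at h1
        change i < (sds I).length - 1 at h1
        omega
      show (zc (ZZ I) ((sds I).getD (i + 1) dj) - zc (ZZ I) ((sds I).getD i dj),
        zc (ZZ I) ((sds I).getD (i + 1) dj) - zc (ZZ I) ((sds I).getD i dj)) = _
      rw [List.getD_eq_getElem _ _ h3, List.getD_eq_getElem _ _ (by omega)]
  · apply List.ext_getElem
    · simp [rinst, pinst]
      omega
    · intro i h1 h2
      simp only [List.getElem_ofFn, List.getElem_map]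
      rw [List.length_map] at h2
      show (((sds I).getD i dj).2.2.1, max 1 ((sds I).getD i dj).2.2.2) = _
      rw [List.getD_eq_getElem _ _ h2]

theorem p_rinst (hI : NPC.Poly I) : NPC.Poly (fun a => rinst (I a)) := by
  have h : NPC.Poly (fun a => (rinst (I a)).code) := by
    simp only [rcode_eq]
    unfold rcode
    fun_prop
  exact h

/-- the reduction -/
def rd (I : In) : Inst := rinst ([] :: I.1, I.2)

theorem p_rd : NPC.Poly rd := by
  unfold rd
  exact p_rinst (I := fun I : In => (([] :: I.1, I.2) : In)) (by fun_prop)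

theorem ec_cons (I : In) : EC (([] :: I.1, I.2) : In) ↔ EC I := by
  constructor
  · rintro ⟨b, hb, hc⟩
    cases b with
    | nil => simp at hb
    | cons b bs =>
      refine ⟨bs, by simpa using hb, fun e he => ?_⟩
      have := hc e he
      unfold selL at this ⊢
      simpa using this
  · rintro ⟨b, hb, hc⟩
    refine ⟨false :: b, by simpa using hb, fun e he => ?_⟩
    have := hc e he
    unfold selL at this ⊢
    simpa using this

theorem schedulable_rd (I : In) : Schedulable (rd I) ↔ EC I := by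
  have hm : 0 < mm (([] :: I.1, I.2) : In) := by
    show 0 < ([] :: I.1).length
    simp
  have h1 := schedulable_rinst hm
  rwa [ec_cons] at h1

theorem small_rd {I : In} (hI : PrEC I) : Small (rd I) := by
  have hm : 0 < mm (([] :: I.1, I.2) : In) := by
    show 0 < ([] :: I.1).length
    simp
  refine small_rinst hm ?_
  show ([] :: I.1).flatten.length ≤ 3 * EE I
  simpa using flatten_le hI

end Pool.Agent.Seat68.VL
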