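import Pool.Agent.Seat68.VL.ConcEC
import Pool.Agent.Seat68.VL.Path

/-!
# The instance on a path
-/

set_option autoImplicit false

namespace Pool.Agent.Seat68.VL

open Finset Pool.Agent.NPC Pool.Agent.NPC.SSP648 Pool.Agent.N582.VL

section Defs

variable (I : In)

/-- the names of the jobs -/
def ixs : List (Ix Lb) := (List.range (FF I + 1)).map .C ++ ((List.range (FF I + 1)).map .A ++
  ((List.range (FF I + 1)).map .B ++ (clab I).map .S))

/-- the coordinate of the start point -/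
def ZZ : ℕ := 2 * mm I * cU I + (FF I + 1) * cD I + cD I

/-- the list of the jobs -/
def dls : List Jb := (ixs I).map (sys I).d

/-- the jobs on the left -/
def lo : List Jb := srt (zc (ZZ I)) (ZZ I) (dls I)

/-- the sorted list of the jobs -/
def sds : List Jb := srt (zc (ZZ I)) (ZZ I + (ZZ I + 1)) (dls I)

/-- the instance -/
def rinst : Inst := pinst (ZZ I) (sds I) (lo I).length ((sys I).T (FF I + 1))

end Defs

variable {I : In}

theorem mem_ixs {v : Ix Lb} : v ∈ ixs I ↔ (sys I).Valid v := by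
  unfold ixs Sys.Valid
  have hN : (sys I).N = FF I + 1 := rfl
  cases v <;> simp [hN, mem_J]

theorem nodup_ixs : (ixs I).Nodup := by
  unfold ixs
  have h1 : ∀ f : ℕ → Ix Lb, Function.Injective f → ((List.range (FF I + 1)).map f).Nodup :=
    fun f hf => List.nodup_range.map hf
  have hA : Function.Injective (Ix.A : ℕ → Ix Lb) := fun a b h => by injection h
  have hB : Function.Injective (Ix.B : ℕ → Ix Lb) := fun a b h => by injection h
  have hC : Function.Injective (Ix.C : ℕ → Ix Lb) := fun a b h => by injection h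
  have hS : Function.Injective (Ix.S : Lb → Ix Lb) := fun a b h => by injection h
  refine List.Nodup.append (h1 _ hC) (List.Nodup.append (h1 _ hA) (List.Nodup.append
    (h1 _ hB) (nodup_clab.map hS) ?_) ?_) ?_ <;>
  · intro v h1 h2
    simp only [List.mem_append, List.mem_map] at h1 h2
    aesop

theorem length_ixs : (ixs I).length = 3 * (FF I + 1) + 2 * mm I * (EE I + 1) := by
  unfold ixs
  simp only [List.length_append, List.length_map, List.length_range, length_clab]
  ring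

/-- the jobs have correct positions and positive handling times -/
theorem d_ok {v : Ix Lb} (hv : (sys I).Valid v) :
    (((sys I).d v).1 = 0 ∨ ((sys I).d v).2.1 = 0) ∧ ((sys I).d v).2.1 ≤ ZZ I ∧
      ((sys I).d v).1 ≤ ZZ I ∧ 0 < ((sys I).d v).2.2.2 := by
  have hM := Sys.M_pos (sys_ok (I := I))
  have hN : (sys I).N = FF I + 1 := rfl
  unfold ZZ
  cases v with
  | C t =>
    refine ⟨Or.inl rfl, Nat.zero_le _, Nat.zero_le _, hM⟩
  | A t =>
    have ht : t < FF I + 1 := hv
    have h1 := q_le (I := I) true (t := t) (by omega)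
    exact ⟨Or.inr rfl, Nat.zero_le _, by simp only [Sys.d]; omega, hM⟩
  | B t =>
    have ht : t < FF I + 1 := hv
    have h1 := q_le (I := I) false (t := t) (by omega)
    exact ⟨Or.inl rfl, by simp only [Sys.d]; omega, Nat.zero_le _, hM⟩
  | S l =>
    have hl : l ∈ clab I := mem_J.1 hv
    have h1 := (sys_ok (I := I)).hD l hv
    have h2 := (sys_ok (I := I)).st_lt l hv
    have h3 := (sys_ok (I := I)).en_lt l hv
    rw [hN] at h3
    have h4 := q_le (I := I) true (t := (sys I).st l) (by omega)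
    have h5 := q_le (I := I) false (t := (sys I).st l) (by omega)
    have h6 : (sys I).D = cD I := rfl
    rw [h6] at h1
    have h7 : 0 < (sys I).h l := by
      unfold Sys.h Sys.psi
      exact Nat.mul_pos (c_pos l) (by omega)
    simp only [Sys.d]
    cases (sys I).side l <;> simp <;> omega

theorem d_ok' {v : Jb} (hv : v ∈ dls I) : (v.1 = 0 ∨ v.2.1 = 0) ∧ v.2.1 ≤ ZZ I ∧ v.1 ≤ ZZ I ∧
    0 < v.2.2.2 := by
  unfold dls at hv
  rw [List.mem_map] at hv
  obtain ⟨u, hu, rfl⟩ := hv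
  exact d_ok (mem_ixs.1 hu)

theorem sds_eq : sds I = (srt (fun v => zc (ZZ I) ((sys I).d v)) (ZZ I + (ZZ I + 1)) (ixs I)).map
    (sys I).d := by
  unfold sds dls
  rw [srt_map]

theorem pok : POk (ZZ I) (sds I) (lo I).length := by
  have hsplit : sds I = lo I ++ (List.range (ZZ I + 1)).flatMap
      (fun p => (dls I).filter fun v => decide (zc (ZZ I) v = ZZ I + p)) := srt_add _ _
  have hC0 : (0, 0, (sys I).T 0, (sys I).M) ∈ dls I := by
    unfold dls
    rw [List.mem_map]
    exact ⟨.C 0, mem_ixs.2 (show 0 < FF I + 1 by omega), rfl⟩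
  obtain ⟨v0, tl, hv0⟩ : ∃ v0 tl, (dls I).filter (fun v => decide (zc (ZZ I) v = ZZ I + 0)) =
      v0 :: tl := by
    rcases h : (dls I).filter (fun v => decide (zc (ZZ I) v = ZZ I + 0)) with _ | ⟨v0, tl⟩
    · exfalso
      have : (0, 0, (sys I).T 0, (sys I).M) ∈
          (dls I).filter (fun v => decide (zc (ZZ I) v = ZZ I + 0)) := by
        rw [List.mem_filter]
        exact ⟨hC0, by simp [zc]⟩
      rw [h] at this
      simp at this
    · exact ⟨v0, tl, rfl⟩
  have hsplit2 : ∃ tl', sds I = lo I ++ v0 :: tl' := by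
    rw [hsplit, List.range_succ_eq_map, List.flatMap_cons, hv0]
    exact ⟨_, rfl⟩
  obtain ⟨tl', hs⟩ := hsplit2
  have hv0m : v0 ∈ dls I ∧ zc (ZZ I) v0 = ZZ I := by
    have : v0 ∈ (dls I).filter (fun v => decide (zc (ZZ I) v = ZZ I + 0)) := by rw [hv0]; simp
    rw [List.mem_filter, decide_eq_true_eq] at this
    exact this
  have hget : (sds I).getD (lo I).length dj = v0 := by
    rw [hs, List.getD_eq_getElem _ _ (by simp)]
    simp
  refine ⟨sorted_srt, ?_, ?_, ?_, ?_⟩
  · rw [hs]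
    simp
  · rw [hget]
    have h1 := d_ok' hv0m.1
    have h2 := hv0m.2
    unfold zc at h2
    omega
  · intro v hv
    exact (d_ok' (mem_srt.1 hv).1).2.2.2
  · intro v hv
    have := d_ok' (mem_srt.1 hv).1
    exact ⟨this.1, this.2.1⟩

theorem schedulable_rinst (hm : 0 < mm I) : Schedulable (rinst I) ↔ EC I := by
  rw [← sched_iff_ec hm]
  have hp := pok (I := I)
  unfold rinst
  rw [sds_eq] at hp ⊢
  rw [schedulable_pinst (nodup_srt nodup_ixs) hp]
  have hmem : ∀ v, v ∈ srt (fun v => zc (ZZ I) ((sys I).d v)) (ZZ I + (ZZ I + 1)) (ixs I) ↔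
      (sys I).Valid v := by
    intro v
    rw [mem_srt, mem_ixs]
    constructor
    · exact fun h => h.1
    · intro h
      refine ⟨h, ?_⟩
      have := d_ok h
      unfold zc
      omega
  unfold Sys.Sched
  constructor
  · rintro ⟨l, h1, h2, h3⟩
    exact ⟨l, h1, fun v => by rw [h2, hmem], h3⟩
  · rintro ⟨l, h1, h2, h3⟩
    exact ⟨l, h1, fun v => by rw [h2, hmem], h3⟩

/-! ### Sizes -/

/-- All travel times, release times, handling times and the bound are at most `V ^ 12`, where `V` is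
the number of the vertices. -/
def Small (I : Inst) : Prop :=
  (∀ i, I.right i ≤ (I.n + 1) ^ 12 ∧ I.left i ≤ (I.n + 1) ^ 12) ∧
  (∀ v, I.release v ≤ (I.n + 1) ^ 12 ∧ I.handling v ≤ (I.n + 1) ^ 12) ∧ I.bound ≤ (I.n + 1) ^ 12

theorem length_sds : (sds I).length = (ixs I).length := by
  rw [sds_eq, List.length_map]
  refine List.Perm.length_eq ((List.perm_ext_iff_of_nodup (nodup_srt nodup_ixs) nodup_ixs).2 ?_)
  intro v
  rw [mem_srt]
  constructor
  · exact fun h => h.1
  · intro h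
    refine ⟨h, ?_⟩
    have := d_ok (mem_ixs.1 h)
    unfold zc
    omega

theorem flatten_le (h : PrEC I) : I.1.flatten.length ≤ 3 * EE I := by
  classical
  have h1 : I.1.flatten.toFinset ⊆ range (EE I) := by
    intro a ha
    rw [List.mem_toFinset, List.mem_flatten] at ha
    obtain ⟨l, hl, ha⟩ := ha
    exact mem_range.2 (h.1 l hl a ha)
  calc I.1.flatten.length = ∑ a ∈ I.1.flatten.toFinset, I.1.flatten.count a :=
        (List.sum_toFinset_count_eq_length _).symm
    _ ≤ ∑ a ∈ range (EE I), I.1.flatten.count a := sum_le_sum_of_subset h1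
    _ ≤ ∑ a ∈ range (EE I), 3 := sum_le_sum fun a _ => h.2 a
    _ = 3 * EE I := by rw [sum_const, card_range, smul_eq_mul, Nat.mul_comm]

/-- the bounds for the parameters in terms of the number `V` of the vertices -/
theorem bounds (hm : 0 < mm I) (h : I.1.flatten.length ≤ 3 * EE I) {V : ℕ}
    (hV : V = (ixs I).length) : 9 ≤ V ∧ ZZ I ≤ V ^ 7 ∧ cM I ≤ V ^ 9 ∧ 3 * (FF I + 1) ≤ V := by
  rw [length_ixs] at hV
  have hF : EE I + 1 + (mm I * EE I + mm I) = FF I := by unfold FF; ring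
  have hFE : EE I + 2 ≤ FF I := by
    have : 0 ≤ mm I * EE I := Nat.zero_le _
    omega
  have h1 : 2 * mm I ≤ V := by
    have : 2 * mm I * (EE I + 1) = 2 * mm I * EE I + 2 * mm I := by ring
    omega
  have h2 : 3 * (FF I + 1) ≤ V := by omega
  have h3 : 2 + I.1.flatten.length ≤ V := by omega
  have h9 : 9 ≤ V := by omega
  have ha : aa I ≤ V ^ 2 := by
    unfold aa
    calc 2 * mm I * (EE I + 1) * (2 + I.1.flatten.length) ≤ V * V :=
          Nat.mul_le_mul (by omega) h3
      _ = V ^ 2 := by ring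
  have hD : cD I ≤ V ^ 3 := by
    unfold cD
    calc (FF I + 1) * aa I ≤ V * V ^ 2 := Nat.mul_le_mul (by omega) ha
      _ = V ^ 3 := by ring
  have hp : ∀ k, 9 * V ^ k ≤ V ^ (k + 1) := fun k => by
    rw [pow_succ, Nat.mul_comm]
    exact Nat.mul_le_mul_left _ h9
  have hp0 : ∀ k, 1 ≤ V ^ k := fun k => Nat.one_le_pow _ _ (by omega)
  have hU : cU I ≤ V ^ 5 := by
    unfold cU
    have e1 : 2 * (FF I + 1) * aa I ≤ 2 * V ^ 3 := by
      calc 2 * (FF I + 1) * aa I ≤ 2 * V * V ^ 2 := Nat.mul_le_mul (by omega) ha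
        _ = 2 * V ^ 3 := by ring
    have e2 : (FF I + 1) * cD I ≤ V ^ 4 := by
      calc (FF I + 1) * cD I ≤ V * V ^ 3 := Nat.mul_le_mul (by omega) hD
        _ = V ^ 4 := by ring
    have p3 : 9 * V ^ 3 ≤ V ^ 4 := hp 3
    have p4 : 9 * V ^ 4 ≤ V ^ 5 := hp 4
    have := hp0 3
    omega
  have e3 : 2 * mm I * cU I ≤ V ^ 6 := by
    calc 2 * mm I * cU I ≤ V * V ^ 5 := Nat.mul_le_mul h1 hU
      _ = V ^ 6 := by ring
  have e4 : (FF I + 1) * cD I ≤ V ^ 4 := by
    calc (FF I + 1) * cD I ≤ V * V ^ 3 := Nat.mul_le_mul (by omega) hD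
      _ = V ^ 4 := by ring
  have p3 : 9 * V ^ 3 ≤ V ^ 4 := hp 3
  have p4 : 9 * V ^ 4 ≤ V ^ 5 := hp 4
  have p5 : 9 * V ^ 5 ≤ V ^ 6 := hp 5
  have p6 : 9 * V ^ 6 ≤ V ^ 7 := hp 6
  have p7 : 9 * V ^ 7 ≤ V ^ 8 := hp 7
  have p8 : 9 * V ^ 8 ≤ V ^ 9 := hp 8
  have q3 := hp0 3
  refine ⟨h9, ?_, ?_, h2⟩
  · unfold ZZ
    omega
  · unfold cM
    have e5 : 4 * (FF I + 1) * (2 * mm I * cU I + (FF I + 1) * cD I) ≤ 8 * V ^ 7 := by
      calc 4 * (FF I + 1) * (2 * mm I * cU I + (FF I + 1) * cD I) ≤ 4 * V * (2 * V ^ 6) :=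
            Nat.mul_le_mul (by omega) (by omega)
        _ = 8 * V ^ 7 := by ring
    have e6 : 2 * (FF I + 1) * aa I ≤ 2 * V ^ 3 := by
      calc 2 * (FF I + 1) * aa I ≤ 2 * V * V ^ 2 := Nat.mul_le_mul (by omega) ha
        _ = 2 * V ^ 3 := by ring
    omega

theorem T_le_T {j k : ℕ} (h : j ≤ k) : (sys I).T j ≤ (sys I).T k := by
  unfold Sys.T
  refine Nat.add_le_add (Nat.mul_le_mul_right _ (by omega)) ?_
  exact sum_le_sum_of_subset (range_subset_range.2 h)

theorem small_rinst (hm : 0 < mm I) (h : I.1.flatten.length ≤ 3 * EE I) : Small (rinst I) := by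
  have hlen : (rinst I).n + 1 = (ixs I).length := by
    show (sds I).length - 1 + 1 = _
    rw [length_sds, length_ixs]
    omega
  obtain ⟨V, hV⟩ : ∃ V, V = (rinst I).n + 1 := ⟨_, rfl⟩
  have hV12 : V ^ 12 ≤ ((rinst I).n + 1) ^ 12 := by rw [hV]
  obtain ⟨h9, hZ, hM, hF⟩ := bounds hm h (hV.trans hlen)
  have hp : ∀ k, 9 * V ^ k ≤ V ^ (k + 1) := fun k => by
    rw [pow_succ, Nat.mul_comm]
    exact Nat.mul_le_mul_left _ h9
  have p7 : 9 * V ^ 7 ≤ V ^ 8 := hp 7
  have p8 : 9 * V ^ 8 ≤ V ^ 9 := hp 8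
  have p9 : 9 * V ^ 9 ≤ V ^ 10 := hp 9
  have p10 : 9 * V ^ 10 ≤ V ^ 11 := hp 10
  have p11 : 9 * V ^ 11 ≤ V ^ 12 := hp 11
  have hT : (sys I).T (FF I + 1) ≤ V ^ 11 := by
    have h1 := Sys.T_lt (sys_ok (I := I)) (j := FF I + 1) le_rfl
    have h2 : (3 * (FF I + 1) + 1) * (sys I).M ≤ (2 * V) * V ^ 9 :=
      Nat.mul_le_mul (by omega) hM
    have h3 : (2 * V) * V ^ 9 = 2 * V ^ 10 := by ring
    omega
  have hz : ∀ i, zc (ZZ I) ((sds I).getD (i + 1) dj) - zc (ZZ I) ((sds I).getD i dj) ≤ V ^ 12 := by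
    intro i
    have h1 : zc (ZZ I) ((sds I).getD (i + 1) dj) ≤ ZZ I + (ZZ I + 1) := by
      rcases Nat.lt_or_ge (i + 1) (sds I).length with h2 | h2
      · exact (mem_srt.1 (getD_mem h2)).2.le
      · rw [List.getD_eq_default _ _ h2]
        unfold zc dj
        simp
    have := Nat.one_le_pow 7 V (by omega)
    omega
  have hd : ∀ v ∈ sds I, v.2.2.1 ≤ V ^ 12 ∧ v.2.2.2 ≤ V ^ 12 := by
    intro v hv
    have h1 := (mem_srt.1 hv).1
    unfold dls at h1
    rw [List.mem_map] at h1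
    obtain ⟨u, hu, rfl⟩ := h1
    have hu' := mem_ixs.1 hu
    have hMM : (sys I).M = cM I := rfl
    have hMV : (sys I).M ≤ V ^ 12 := by rw [hMM]; omega
    have hrel : ∀ t, t < FF I + 1 → (3 * t + 1) * (sys I).M ≤ V ^ 12 := by
      intro t ht
      have h2 : (3 * t + 1) * (sys I).M ≤ V * V ^ 9 := Nat.mul_le_mul (by omega) hM
      have h3 : V * V ^ 9 = V ^ 10 := by ring
      omega
    cases u with
    | C t =>
      have ht : t < FF I + 1 := hu'
      have := T_le_T (I := I) ht.le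
      refine ⟨?_, hMV⟩
      show (sys I).T t ≤ _
      omega
    | A t => exact ⟨hrel t hu', hMV⟩
    | B t => exact ⟨hrel t hu', hMV⟩
    | S l =>
      have h2 := (sys_ok (I := I)).st_lt l hu'
      have h3 := (sys_ok (I := I)).en_lt l hu'
      have hN : (sys I).N = FF I + 1 := rfl
      refine ⟨hrel _ (by omega), ?_⟩
      show (sys I).c l * (sys I).psi ((sys I).en l) ≤ _
      have h4 : (sys I).c l ≤ V := by
        have h5 : cc I l ≤ _ := cc_le (mem_J.1 hu')
        have h6 : EE I + 2 ≤ FF I := by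
          have hF' : EE I + 1 + (mm I * EE I + mm I) = FF I := by unfold FF; ring
          have : 0 ≤ mm I * EE I := Nat.zero_le _
          omega
        show cc I l ≤ V
        omega
      have h7 : (sys I).psi ((sys I).en l) ≤ V := by
        unfold Sys.psi
        omega
      have h8 : (sys I).c l * (sys I).psi ((sys I).en l) ≤ V * V := Nat.mul_le_mul h4 h7
      have h10 : V * V ≤ V ^ 12 := by
        calc V * V = V ^ 2 := by ring
          _ ≤ V ^ 12 := Nat.pow_le_pow_right (by omega) (by norm_num)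
      omega
  refine ⟨fun i => ⟨(hz i).trans hV12, (hz i).trans hV12⟩, fun v => ?_, ?_⟩
  · have hv : (v : ℕ) < (sds I).length := by
      have h1 := v.2
      rw [length_sds]
      omega
    have h2 := hd _ (getD_mem hv)
    refine ⟨h2.1.trans hV12, le_trans ?_ hV12⟩
    show max 1 _ ≤ _
    have h3 := Nat.one_le_pow 12 V (by omega)
    exact max_le h3 h2.2
  · refine le_trans ?_ hV12
    show (sys I).T (FF I + 1) ≤ _
    omega

end Pool.Agent.Seat68.VL
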