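import Pool.Agent.Seat68.VL.Basic

/-!
# The scheduling problem of a system of linear equations with two stacks
-/

set_option autoImplicit false

namespace Pool.Agent.Seat68.VL

open Finset

/-- The names of the jobs: the job at home of the round `t`, the outermost forced job on the right,
the outermost forced job on the left, and the small jobs. -/
inductive Ix (ι : Type) : Type
  | C (t : ℕ)
  | A (t : ℕ)
  | B (t : ℕ)
  | S (i : ι)
  deriving DecidableEq

/-- A system: `N` rounds; a finite set of small jobs, each with a side, a first round, a last round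
and a weight; the levels of the rounds on both sides; the right hand sides. -/
structure Sys (ι : Type) where
  N : ℕ
  J : Finset ι
  side : ι → Bool
  st : ι → ℕ
  en : ι → ℕ
  c : ι → ℕ
  rR : ℕ → ℕ
  rL : ℕ → ℕ
  β : ℕ → ℕ
  Λ : ℕ
  D : ℕ
  U : ℕ
  M : ℕ

namespace Sys

variable {ι : Type} (s : Sys ι)

/-- the level function of a side -/
def r (b : Bool) (t : ℕ) : ℕ := if b then s.rR t else s.rL t

/-- the weight of a round -/
def psi (t : ℕ) : ℕ := 2 * (s.N - t)

/-- the forced reach of a round on a side -/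
def q (b : Bool) (t : ℕ) : ℕ := (s.Λ - s.r b t) * s.U + t * s.D

/-- the time, without the big handling times, between the home jobs of two rounds -/
def stp (t : ℕ) : ℕ := 2 * s.q true t + 2 * s.q false t + s.psi t * s.β t

/-- the release times of the home jobs -/
def T (j : ℕ) : ℕ := 3 * j * s.M + ∑ t ∈ range j, s.stp t

/-- the additional reach for a small job -/
def dl (i : ι) : ℕ := s.c i * (s.en i - s.st i)

/-- handling time of a small job -/
def h (i : ι) : ℕ := s.c i * s.psi (s.en i)

/-- the data of the jobs -/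
def d : Ix ι → Jb
  | .C t => (0, 0, s.T t, s.M)
  | .A t => (s.q true t, 0, (3 * t + 1) * s.M, s.M)
  | .B t => (0, s.q false t, (3 * t + 1) * s.M, s.M)
  | .S i => (if s.side i then s.q true (s.st i) + s.dl i else 0,
      if s.side i then 0 else s.q false (s.st i) + s.dl i, (3 * s.st i + 1) * s.M, s.h i)

/-- the names which are used -/
def Valid : Ix ι → Prop
  | .C t => t < s.N
  | .A t => t < s.N
  | .B t => t < s.N
  | .S i => i ∈ s.J

structure Ok : Prop where
  st_lt : ∀ i ∈ s.J, s.st i < s.en i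
  en_lt : ∀ i ∈ s.J, s.en i < s.N
  cpos : ∀ i ∈ s.J, 0 < s.c i
  uniq : ∀ i ∈ s.J, ∀ j ∈ s.J, s.side i = s.side j → s.st i = s.st j → i = j
  lev : ∀ i ∈ s.J, ∀ t, s.st i < t → t < s.en i → s.r (s.side i) (s.st i) < s.r (s.side i) t
  lev_en : ∀ i ∈ s.J, s.r (s.side i) (s.en i) ≤ s.r (s.side i) (s.st i)
  le_top : ∀ b t, t < s.N → s.r b t ≤ s.Λ
  sum_eq : ∑ t ∈ range s.N, s.β t = ∑ i ∈ s.J, s.c i
  hD : ∀ i ∈ s.J, s.dl i ≤ s.D
  hU : ∑ t ∈ range s.N, s.psi t * s.β t + s.N * s.D + 1 ≤ s.U
  hM : ∑ t ∈ range s.N, s.stp t < s.M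

/-- the value of the left hand side of the equation of the round `t` -/
def Y (x : ι → Bool) (t : ℕ) : ℕ :=
  (∑ i ∈ s.J with s.st i = t, if x i then s.c i else 0) +
    ∑ i ∈ s.J with s.en i = t, if x i then 0 else s.c i

/-- the system has a solution -/
def Solvable : Prop := ∃ x : ι → Bool, ∀ t < s.N, s.Y x t = s.β t

/-- the scheduling problem has a solution -/
def Sched : Prop := ∃ l : List (Ix ι), l.Nodup ∧ (∀ v, v ∈ l ↔ s.Valid v) ∧
  fin s.d 0 0 0 l ≤ s.T s.N

variable {s}

theorem T_succ (j : ℕ) : s.T (j + 1) = s.T j + 3 * s.M + s.stp j := by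
  unfold T
  rw [sum_range_succ]
  ring

theorem T_lt (ho : s.Ok) {j : ℕ} (hj : j ≤ s.N) : s.T j < (3 * j + 1) * s.M := by
  have h1 : ∑ t ∈ range j, s.stp t ≤ ∑ t ∈ range s.N, s.stp t :=
    sum_le_sum_of_subset (range_subset_range.2 hj)
  have h2 := ho.hM
  unfold T
  have h3 : (3 * j + 1) * s.M = 3 * j * s.M + s.M := by ring
  omega

theorem le_T (j : ℕ) : 3 * j * s.M ≤ s.T j := by unfold T; omega

theorem M_pos (ho : s.Ok) : 0 < s.M := by have := ho.hM; omega

end Sys

/-- big jobs -/
def Ix.big {ι : Type} : Ix ι → Bool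
  | .S _ => false
  | _ => true

/-- jobs at home -/
def Ix.isC {ι : Type} : Ix ι → Bool
  | .C _ => true
  | _ => false

namespace Sys

variable {ι : Type} {s : Sys ι}

/-- the level of a job -/
def lvl (s : Sys ι) : Ix ι → ℕ
  | .C t => 3 * t
  | .A t => 3 * t + 1
  | .B t => 3 * t + 1
  | .S i => 3 * s.st i + 1

theorem lvl_le (v : Ix ι) : s.lvl v * s.M ≤ (s.d v).2.2.1 := by
  cases v with
  | C t => exact s.le_T t
  | A t => exact le_rfl
  | B t => exact le_rfl
  | S i => exact le_rfl

/-- a schedule -/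
structure IsL (s : Sys ι) (l : List (Ix ι)) : Prop where
  nodup : l.Nodup
  mem : ∀ v, v ∈ l ↔ s.Valid v
  le : fin s.d 0 0 0 l ≤ s.T s.N

/-- all names -/
noncomputable def all (s : Sys ι) : List (Ix ι) :=
  (List.range s.N).map .C ++ (List.range s.N).map .A ++ (List.range s.N).map .B ++
    s.J.toList.map .S

theorem mem_all (v : Ix ι) : v ∈ s.all ↔ s.Valid v := by
  unfold all Valid
  cases v <;> simp

theorem nodup_all : s.all.Nodup := by
  unfold all
  have h1 : ∀ f : ℕ → Ix ι, Function.Injective f → ((List.range s.N).map f).Nodup :=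
    fun f hf => List.nodup_range.map hf
  have hA : Function.Injective (Ix.A : ℕ → Ix ι) := fun a b h => by injection h
  have hB : Function.Injective (Ix.B : ℕ → Ix ι) := fun a b h => by injection h
  have hC : Function.Injective (Ix.C : ℕ → Ix ι) := fun a b h => by injection h
  have hS : Function.Injective (Ix.S : ι → Ix ι) := fun a b h => by injection h
  refine List.Nodup.append (List.Nodup.append (List.Nodup.append (h1 _ hC) (h1 _ hA) ?_)
    (h1 _ hB) ?_) (s.J.nodup_toList.map hS) ?_ <;>
  · intro v h1 h2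
    simp only [List.mem_append, List.mem_map] at h1 h2
    aesop

theorem countP_all : s.all.countP Ix.big = 3 * s.N := by
  unfold all
  simp only [List.countP_append, List.countP_map]
  have h1 : (Ix.big ∘ (Ix.C : ℕ → Ix ι)) = fun _ => true := rfl
  have h2 : (Ix.big ∘ (Ix.A : ℕ → Ix ι)) = fun _ => true := rfl
  have h3 : (Ix.big ∘ (Ix.B : ℕ → Ix ι)) = fun _ => true := rfl
  have h4 : (Ix.big ∘ (Ix.S : ι → Ix ι)) = fun _ => false := rfl
  rw [h1, h2, h3, h4]
  simp
  ring

theorem IsL.perm {l : List (Ix ι)} (h : s.IsL l) : l.Perm s.all :=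
  (List.perm_ext_iff_of_nodup h.nodup nodup_all).2 fun v => by rw [h.mem, mem_all]

theorem sum_big (l : List (Ix ι)) : l.countP Ix.big * s.M ≤ (l.map fun v => (s.d v).2.2.2).sum := by
  induction l with
  | nil => simp
  | cons v l ih =>
    rw [List.countP_cons, List.map_cons, List.sum_cons, Nat.add_mul]
    have hd : (if Ix.big v = true then 1 else 0) * s.M ≤ (s.d v).2.2.2 := by
      cases v <;> simp [Ix.big, d]
    omega

/-- The key estimate. -/
theorem IsL.fact (ho : s.Ok) {l : List (Ix ι)} (h : s.IsL l) {pre suf : List (Ix ι)} {v : Ix ι}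
    (hl : l = pre ++ v :: suf) : s.lvl v ≤ pre.countP Ix.big := by
  have h1 := le_fin_at s.d v suf pre 0 0 0
  rw [← hl] at h1
  have h2 := sum_big (s := s) (v :: suf)
  have h3 := lvl_le (s := s) v
  have h4 := h.perm.countP_eq (p := Ix.big)
  rw [countP_all, hl, List.countP_append] at h4
  have h5 := T_lt ho (le_refl s.N)
  have h6 := h.le
  have h7 : s.lvl v * s.M < (pre.countP Ix.big + 1) * s.M := by
    have e : (3 * s.N + 1) * s.M = pre.countP Ix.big * s.M + (v :: suf).countP Ix.big * s.M + s.M := by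
      rw [← h4]; ring
    have e2 : (pre.countP Ix.big + 1) * s.M = pre.countP Ix.big * s.M + s.M := by ring
    omega
  have := lt_of_mul_lt_mul_right h7 (Nat.zero_le _)
  omega

/-- the state after the jobs of the list `pre`, `c` of which are big -/
structure Inv (c : ℕ) (pre : List (Ix ι)) : Prop where
  hC : ∀ u, Ix.C u ∈ pre ↔ 3 * u < c
  hAB : ∀ u, 3 * u + 3 ≤ c → Ix.A u ∈ pre ∧ Ix.B u ∈ pre
  hn : ∀ u, c ≤ 3 * u + 1 → Ix.A u ∉ pre ∧ Ix.B u ∉ pre
  hx : ∀ u, c = 3 * u + 2 → (Ix.A u ∈ pre ↔ Ix.B u ∉ pre)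
  hc : pre.countP Ix.isC = (c + 2) / 3

theorem Inv.C {c : ℕ} {pre : List (Ix ι)} (h : Inv c pre) {u : ℕ} (h1 : Ix.C u ∉ pre)
    (h2 : 3 * u ≤ c) : c = 3 * u ∧ Inv (c + 1) (pre ++ [.C u]) := by
  rw [h.hC] at h1
  have hc : c = 3 * u := by omega
  refine ⟨hc, ?_, ?_, ?_, ?_, ?_⟩
  · intro w
    rw [List.mem_append, h.hC]
    simp
    omega
  · intro w hw
    have := h.hAB w (by omega)
    simp [this]
  · intro w hw
    have := h.hn w (by omega)
    simp [this]
  · intro w hw
    omega
  · rw [List.countP_append, h.hc]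
    simp [Ix.isC]
    omega

theorem Inv.A {c : ℕ} {pre : List (Ix ι)} (h : Inv c pre) {u : ℕ} (h1 : Ix.A u ∉ pre)
    (h2 : 3 * u + 1 ≤ c) : (c = 3 * u + 1 ∨ c = 3 * u + 2) ∧ Inv (c + 1) (pre ++ [.A u]) := by
  have h3 : c < 3 * u + 3 := by
    by_contra hcon
    exact h1 (h.hAB u (by omega)).1
  have hc : c = 3 * u + 1 ∨ c = 3 * u + 2 := by omega
  refine ⟨hc, ?_, ?_, ?_, ?_, ?_⟩
  · intro w
    rw [List.mem_append, h.hC]
    simp
    omega
  · intro w hw
    rcases Nat.lt_or_ge c (3 * w + 3) with h4 | h4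
    · have h5 : w = u := by omega
      subst h5
      have h6 := (h.hx w (by omega)).not.1 h1
      rw [not_not] at h6
      simp [h6]
    · have := h.hAB w h4
      simp [this]
  · intro w hw
    have := h.hn w (by omega)
    have h5 : w ≠ u := by omega
    simp [this, h5]
  · intro w hw
    have h5 : w = u := by omega
    subst h5
    have := (h.hn w (by omega)).2
    simp [this]
  · rw [List.countP_append, h.hc]
    simp [Ix.isC]
    omega

theorem Inv.B {c : ℕ} {pre : List (Ix ι)} (h : Inv c pre) {u : ℕ} (h1 : Ix.B u ∉ pre)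
    (h2 : 3 * u + 1 ≤ c) : (c = 3 * u + 1 ∨ c = 3 * u + 2) ∧ Inv (c + 1) (pre ++ [.B u]) := by
  have h3 : c < 3 * u + 3 := by
    by_contra hcon
    exact h1 (h.hAB u (by omega)).2
  have hc : c = 3 * u + 1 ∨ c = 3 * u + 2 := by omega
  refine ⟨hc, ?_, ?_, ?_, ?_, ?_⟩
  · intro w
    rw [List.mem_append, h.hC]
    simp
    omega
  · intro w hw
    rcases Nat.lt_or_ge c (3 * w + 3) with h4 | h4
    · have h5 : w = u := by omega
      subst h5
      have h6 := (h.hx w (by omega)).2 h1
      simp [h6]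
    · have := h.hAB w h4
      simp [this]
  · intro w hw
    have := h.hn w (by omega)
    have h5 : w ≠ u := by omega
    simp [this, h5]
  · intro w hw
    have h5 : w = u := by omega
    subst h5
    have := (h.hn w (by omega)).1
    simp [this]
  · rw [List.countP_append, h.hc]
    simp [Ix.isC]
    omega

theorem Inv.S {c : ℕ} {pre : List (Ix ι)} (h : Inv c pre) (i : ι) : Inv c (pre ++ [.S i]) := by
  obtain ⟨h1, h2, h3, h4, h5⟩ := h
  refine ⟨?_, ?_, ?_, ?_, ?_⟩
  · simpa using h1
  · simpa using h2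
  · simpa using h3
  · simpa using h4
  · rw [List.countP_append, h5]
    simp [Ix.isC]

theorem IsL.notMem {l : List (Ix ι)} (h : s.IsL l) {pre suf : List (Ix ι)} {v : Ix ι}
    (hl : l = pre ++ v :: suf) : v ∉ pre := by
  have h1 := h.nodup
  rw [hl, List.nodup_append] at h1
  intro hv
  exact h1.2.2 v hv v List.mem_cons_self rfl

/-- the invariant holds for every beginning of a schedule -/
theorem IsL.inv (ho : s.Ok) {l : List (Ix ι)} (h : s.IsL l) (pre : List (Ix ι)) : ∀ suf,
    l = pre ++ suf → Inv (pre.countP Ix.big) pre := by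
  induction pre using List.reverseRecOn with
  | nil =>
    intro suf _
    refine ⟨?_, ?_, ?_, ?_, ?_⟩ <;> simp
  | append_singleton pre v ih =>
    intro suf hl
    have hl' : l = pre ++ v :: suf := by rw [hl]; simp
    have h1 := ih _ hl'
    have h2 := h.fact ho hl'
    have h3 := h.notMem hl'
    rw [List.countP_append]
    cases v with
    | C u => exact (h1.C h3 h2).2
    | A u => exact (h1.A h3 h2).2
    | B u => exact (h1.B h3 h2).2
    | S i => exact h1.S i

end Sys

end Pool.Agent.Seat68.VL
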